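import Mathlib

set_option autoImplicit false

namespace Pool.Agent.Helper359.LB

theorem grp {G : Type*} [Group G] (a b c d : G) (ha : a*a=d) (hb : b*b=d) (hc : c*c=d)
    (hd : d*d*d=1) (B1 : a*b*a=b*a*b) (B2 : b*c*b=c*b*c) (Hg : b*c*a=a*b*c) : b*c=d := by
  have da : d*a=a*d := by rw [← ha]; group
  have db : d*b=b*d := by rw [← hb]; group
  have dc : d*c=c*d := by rw [← hc]; group
  have h3 : (a*b)*(a*b)*(a*b)=1 := by
    calc (a*b)*(a*b)*(a*b) = (a*b*a)*(b*a*b) := by group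
      _ = (a*b*a)*(a*b*a) := by rw [B1]
      _ = a*b*(a*a)*b*a := by group
      _ = a*(b*(d*b))*a := by rw [ha]; group
      _ = a*(b*(b*d))*a := by rw [db]
      _ = a*((b*b)*d)*a := by group
      _ = a*d*(d*a) := by rw [hb]; group
      _ = (a*d)*(a*d) := by rw [da]
      _ = (d*a)*(a*d) := by rw [da]
      _ = d*(a*a)*d := by group
      _ = 1 := by rw [ha, hd]
  have cbbc : (c*b)*(b*c) = d*d := by
    calc (c*b)*(b*c) = c*(b*b)*c := by group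
      _ = (c*d)*c := by rw [hb]
      _ = (d*c)*c := by rw [dc]
      _ = d*(c*c) := by group
      _ = d*d := by rw [hc]
  have cb : c*b = d*d*(b*c)⁻¹ := by rw [← cbbc]; group
  have acb : a*(c*b) = (c*b)*a := by
    rw [cb]
    have : (b*c)⁻¹*a = a*(b*c)⁻¹ := by
      rw [inv_mul_eq_iff_eq_mul, ← mul_assoc, Hg]; group
    calc a*(d*d*(b*c)⁻¹) = (a*d)*d*(b*c)⁻¹ := by group
      _ = (d*a)*d*(b*c)⁻¹ := by rw [← da]
      _ = d*(a*d)*(b*c)⁻¹ := by group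
      _ = d*(d*a)*(b*c)⁻¹ := by rw [← da]
      _ = d*d*(a*(b*c)⁻¹) := by group
      _ = d*d*(b*c)⁻¹*a := by rw [← this]; group
  have hg1 : (a*b)*(b*c) = (c*b)*(a*b) := by
    calc (a*b)*(b*c) = a*(b*b)*c := by group
      _ = a*(d*c) := by rw [hb]; group
      _ = a*(c*d) := by rw [dc]
      _ = a*(c*b)*b := by rw [← hb]; group
      _ = (c*b)*a*b := by rw [acb]
      _ = (c*b)*(a*b) := by group
  have hg2 : (a*b)*(c*b) = (b*c)*(a*b) := by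
    calc (a*b)*(c*b) = (a*b*c)*b := by group
      _ = (b*c*a)*b := by rw [Hg]
      _ = (b*c)*(a*b) := by group
  have e1 : b*c = c*b := by
    calc b*c = (a*b)*(a*b)*(a*b)*(b*c) := by rw [h3, one_mul]
      _ = (a*b)*(a*b)*((a*b)*(b*c)) := by group
      _ = (a*b)*((a*b)*(c*b))*(a*b) := by rw [hg1]; group
      _ = ((a*b)*(b*c))*(a*b)*(a*b) := by rw [hg2]; group
      _ = (c*b)*((a*b)*(a*b)*(a*b)) := by rw [hg1]; group
      _ = c*b := by rw [h3, mul_one]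
  have e2 : (b*c)*(b*c) = d*d := by
    nth_rw 1 [e1]
    exact cbbc
  have e3 : (b*c)*(b*c)*(b*c) = 1 := by
    calc (b*c)*(b*c)*(b*c) = (b*c*b)*(c*b*c) := by group
      _ = (b*c*b)*(b*c*b) := by rw [B2]
      _ = b*c*(b*b)*c*b := by group
      _ = b*(c*(d*c))*b := by rw [hb]; group
      _ = b*(c*(c*d))*b := by rw [dc]
      _ = b*((c*c)*d)*b := by group
      _ = b*d*(d*b) := by rw [hc]; group
      _ = (b*d)*(b*d) := by rw [db]
      _ = (d*b)*(b*d) := by rw [db]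
      _ = d*(b*b)*d := by group
      _ = 1 := by rw [hb, hd]
  have e4 : d*d*(b*c) = 1 := by rw [← e2, e3]
  calc b*c = (d*d)⁻¹*(d*d*(b*c)) := by group
    _ = (d*d)⁻¹*(d*d*d) := by rw [e4, hd]
    _ = d := by group

theorem perm_apply_inv {Q : Type*} (e : Equiv.Perm Q) (p : Q) : e (e⁻¹ p) = p :=
  e.apply_symm_apply p

/-- The algebraic data extracted from a plane with commutative homology groups. -/
structure Sys (A Q : Type*) [AddCommGroup A] where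
  δ : Equiv.Perm Q
  F : A → Equiv.Perm Q
  c : A → A → A
  c_ne : ∀ x y, x ≠ 0 → y ≠ 0 → c x y ≠ 0
  conj : ∀ x y, x ≠ 0 → y ≠ 0 → ∀ p, F (c x y) (F x p) = F x (F y p)
  neg : ∀ x, x ≠ 0 → ∀ p, F (-x) (F x p) = δ p
  δF : ∀ x, x ≠ 0 → ∀ p, δ (F x p) = F x (δ p)
  S1 : ∀ p q, q = p ∨ q = δ p ∨ ∃ x, x ≠ 0 ∧ q = F x p
  d1 : ∀ p, δ p ≠ p
  d2 : ∀ x p, x ≠ 0 → F x p ≠ p
  d3 : ∀ x p, x ≠ 0 → F x p ≠ δ p
  inj : ∀ x y p, x ≠ 0 → y ≠ 0 → F x p = F y p → x = y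
  cc : ∀ x y, x ≠ 0 → y ≠ 0 → c x (c x y) = y
  cself : ∀ x, x ≠ 0 → c x x = x
  comm : ∀ a b, a ≠ 0 → b ≠ 0 → c a b = b → c b a = a → b = a ∨ b = -a

namespace Sys

variable {A Q : Type*} [AddCommGroup A] (S : Sys A Q)

include S

theorem agree (a b : A) (ha : a ≠ 0) (hb : b ≠ 0) (p : Q)
    (h : S.F a (S.F b p) = S.F b (S.F a p)) : b = a ∨ b = -a := by
  have h1 : S.c a b = b := by
    apply S.inj _ _ (S.F a p) (S.c_ne a b ha hb) hb
    rw [S.conj a b ha hb, h]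
  have h2 : S.c b a = a := by
    apply S.inj _ _ (S.F b p) (S.c_ne b a hb ha) ha
    rw [S.conj b a hb ha, h]
  exact S.comm a b ha hb h1 h2

theorem sq_comm (x y : A) (hx : x ≠ 0) (hy : y ≠ 0) (p : Q) :
    S.F x (S.F x (S.F y p)) = S.F y (S.F x (S.F x p)) := by
  rw [← S.conj x y hx hy, ← S.conj x (S.c x y) hx (S.c_ne x y hx hy), S.cc x y hx hy]

/-! ### Exponent two -/

section two

variable (h2 : ∀ x : A, -x = x)
include h2

theorem FF (x : A) (hx : x ≠ 0) (p : Q) : S.F x (S.F x p) = S.δ p := by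
  have := S.neg x hx p
  rwa [h2] at this

theorem dd_ne (hA : ∃ y : A, y ≠ 0) (p : Q) : S.δ (S.δ p) ≠ p := by
  intro h
  obtain ⟨y, hy⟩ := hA
  rcases S.S1 p (S.δ (S.F y p)) with h1 | h1 | ⟨z, hz, h1⟩
  · exact S.d3 y p hy (S.δ.injective (by rw [h1, h]))
  · exact S.d2 y p hy (S.δ.injective h1)
  · have e1 : S.F y (S.F z p) = p := by
      rw [← h1, ← S.δF y hy, S.FF h2 y hy, h]
    have e2 : S.F z (S.F y p) = p := by
      apply S.δ.injective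
      rw [S.δF z hz, h1, S.FF h2 z hz]
    have h3 := S.agree z y hz hy p (by rw [e1, e2])
    rw [h2, or_self] at h3
    subst h3
    exact S.d1 _ h1

theorem exists_w (hA : ∃ y : A, y ≠ 0) (p : Q) : ∃ w : A, w ≠ 0 ∧ S.F w p = S.δ (S.δ p) := by
  rcases S.S1 p (S.δ (S.δ p)) with h1 | h1 | ⟨z, hz, h1⟩
  · exact absurd h1 (S.dd_ne h2 hA p)
  · exact absurd (S.δ.injective h1) (S.d1 p)
  · exact ⟨z, hz, h1.symm⟩

theorem ddd (hA : ∃ y : A, y ≠ 0) (p : Q) : S.δ (S.δ (S.δ p)) = p := by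
  obtain ⟨w, hw, h⟩ := S.exists_w h2 hA p
  have e1 := S.FF h2 w hw p
  rw [h, ← S.δF w hw, ← S.δF w hw, h] at e1
  exact S.δ.injective e1

theorem braid (y y1 : A) (hy : y ≠ 0) (hy1 : y1 ≠ 0) (hA : ∃ y : A, y ≠ 0) (p : Q)
    (h : S.F y1 p = S.δ (S.F y p)) (r : Q) :
    S.F y (S.F y1 (S.F y r)) = S.F y1 (S.F y (S.F y1 r)) := by
  have e1 : S.F y (S.F y1 (S.δ p)) = p := by
    rw [← S.δF y1 hy1, ← S.δF y hy, h, ← S.δF y hy, S.FF h2 y hy, S.ddd h2 hA]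
  have e2 : S.F y1 (S.F y p) = p := by
    apply S.δ.injective
    rw [S.δF y1 hy1, ← h, S.FF h2 y1 hy1]
  have e3 : S.c y y1 = S.c y1 y := by
    apply S.inj _ _ (S.F y1 p) (S.c_ne _ _ hy hy1) (S.c_ne _ _ hy1 hy)
    have e4 : S.F y (S.δ p) = S.F y1 p := by rw [h, S.δF y hy]
    rw [S.conj y1 y hy1 hy, ← e4, S.conj y y1 hy hy1, e1, e2]
  rw [← S.conj y y1 hy hy1, ← S.conj y1 y hy1 hy, e3, S.FF h2 y hy, S.FF h2 y1 hy1]

theorem no_two (p0 : Q) (hA : ∀ w : A, ∃ y : A, y ≠ 0 ∧ y ≠ w) : False := by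
  have hA' : ∃ y : A, y ≠ 0 := by
    obtain ⟨y, hy, -⟩ := hA 0
    exact ⟨y, hy⟩
  obtain ⟨w, hw, hwp⟩ := S.exists_w h2 hA' p0
  obtain ⟨y0, hy0, hy0w⟩ := hA w
  -- a point outside the orbit of p0
  set p1 := S.F y0 p0 with hp1
  have n0 : p1 ≠ p0 := S.d2 y0 p0 hy0
  have n1 : p1 ≠ S.δ p0 := S.d3 y0 p0 hy0
  have n2 : p1 ≠ S.δ (S.δ p0) := by
    rw [← hwp]
    intro h
    exact hy0w (S.inj _ _ p0 hy0 hw h)
  -- F w p1 ≠ δ δ p1
  have hw1 : S.F w p1 ≠ S.δ (S.δ p1) := by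
    intro h
    have h3 := S.agree w y0 hw hy0 p0 (by
      rw [← hp1, h, hp1, hwp, S.δF y0 hy0, S.δF y0 hy0])
    rw [h2, or_self] at h3
    exact hy0w h3
  -- b
  obtain ⟨y1, hy1, hb⟩ : ∃ y1 : A, y1 ≠ 0 ∧ S.F y1 p1 = S.δ (S.F w p1) := by
    rcases S.S1 p1 (S.δ (S.F w p1)) with h1 | h1 | ⟨z, hz, h1⟩
    · exfalso; apply hw1
      apply S.δ.injective
      rw [h1, S.ddd h2 hA']
    · exact absurd (S.δ.injective h1) (S.d2 w p1 hw)
    · exact ⟨z, hz, h1.symm⟩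
  have hy1w : y1 ≠ w := by
    rintro rfl
    exact S.d1 _ hb.symm
  have B1 := S.braid h2 w y1 hw hy1 hA' p1 hb
  obtain ⟨y2, hy2, hb2⟩ : ∃ y2 : A, y2 ≠ 0 ∧ S.F y2 p0 = S.δ (S.F y1 p0) := by
    rcases S.S1 p0 (S.δ (S.F y1 p0)) with h1 | h1 | ⟨z, hz, h1⟩
    · exfalso; apply hy1w
      apply S.inj _ _ p0 hy1 hw
      rw [hwp]
      apply S.δ.injective
      rw [h1, S.ddd h2 hA']
    · exact absurd (S.δ.injective h1) (S.d2 y1 p0 hy1)
    · exact ⟨z, hz, h1.symm⟩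
  have B2 := S.braid h2 y1 y2 hy1 hy2 hA' p0 hb2
  -- g = F y1 F y2 commutes with F w
  have hg : S.F y1 (S.F y2 p0) = S.δ (S.δ p0) := by
    rw [hb2, ← S.δF y1 hy1, S.FF h2 y1 hy1]
  have hgw : ∀ r, S.F y1 (S.F y2 (S.F w r)) = S.F w (S.F y1 (S.F y2 r)) := by
    have e : S.c y1 (S.c y2 w) = w := by
      apply S.inj _ _ (S.F y1 (S.F y2 p0)) (S.c_ne _ _ hy1 (S.c_ne _ _ hy2 hw)) hw
      rw [S.conj y1 (S.c y2 w) hy1 (S.c_ne _ _ hy2 hw), S.conj y2 w hy2 hw, hwp, hg,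
        ← S.δF y2 hy2, ← S.δF y2 hy2, ← S.δF y1 hy1, ← S.δF y1 hy1, hg, ← S.δF w hw,
        ← S.δF w hw, hwp]
    intro r
    rw [← S.conj y2 w hy2 hw, ← S.conj y1 (S.c y2 w) hy1 (S.c_ne _ _ hy2 hw), e]
  -- group computation
  have hfin := grp (S.F w) (S.F y1) (S.F y2) S.δ
    (Equiv.ext fun r => S.FF h2 w hw r) (Equiv.ext fun r => S.FF h2 y1 hy1 r)
    (Equiv.ext fun r => S.FF h2 y2 hy2 r) (Equiv.ext fun r => S.ddd h2 hA' r)
    (Equiv.ext fun r => B1 r) (Equiv.ext fun r => B2 r) (Equiv.ext fun r => hgw r)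
  have := congrArg (fun e : Equiv.Perm Q => e p0) hfin
  simp only [Equiv.Perm.mul_apply] at this
  rw [hg] at this
  exact S.d1 _ this

end two

/-! ### The case without two- and three-torsion -/

theorem zfix (a : A) (ha : a ≠ 0) (ζ : Equiv.Perm Q)
    (hζ : ∀ y, y ≠ 0 → ∀ p, ζ (S.F y p) = S.F y (ζ p)) (p : Q) (h : ζ p = p) (q : Q) :
    ζ q = q := by
  rcases S.S1 p q with rfl | rfl | ⟨x, hx, rfl⟩
  · exact h
  · rw [← S.neg a ha p, hζ _ (neg_ne_zero.mpr ha), hζ _ ha, h]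
  · rw [hζ x hx, h]

theorem zδ (a : A) (ha : a ≠ 0) (ζ : Equiv.Perm Q)
    (hζ : ∀ y, y ≠ 0 → ∀ p, ζ (S.F y p) = S.F y (ζ p)) (p : Q) : ζ (S.δ p) = S.δ (ζ p) := by
  rw [← S.neg a ha p, hζ _ (neg_ne_zero.mpr ha), hζ _ ha, S.neg a ha]

theorem neg' (x : A) (hx : x ≠ 0) (p : Q) : S.F x (S.F (-x) p) = S.δ p := by
  have := S.neg (-x) (neg_ne_zero.mpr hx) p
  rwa [neg_neg] at this

omit S in
theorem dinj (h2 : ∀ x : A, x + x = 0 → x = 0) (x y : A) (h : x + x = y + y) : x = y := by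
  have : (x - y) + (x - y) = 0 := by
    calc (x - y) + (x - y) = (x + x) - (y + y) := by abel
      _ = 0 := by rw [h, sub_self]
  exact sub_eq_zero.mp (h2 _ this)

section odd

variable (h2 : ∀ x : A, x + x = 0 → x = 0) (h3 : ∀ x : A, x + x + x = 0 → x = 0)
  (M3 : ∀ x y, x ≠ 0 → y ≠ 0 → S.c x (y + y) + S.c x (y + y) = S.c x y)
  (M4 : ∀ x y, x ≠ 0 → y ≠ 0 → S.c (x + x) y = S.c x y + S.c x y + (S.c x y + S.c x y))

include h2 h3 M3 M4

theorem claim1a (z : A) (hz : z ≠ 0) (ζ : Equiv.Perm Q)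
    (hζ : ∀ y, y ≠ 0 → ∀ p, ζ (S.F y p) = S.F y (ζ p)) (p : Q) (h : S.F z p = ζ p) :
    ζ (S.F (z + z) (S.F (z + z) p)) = S.δ p := by
  have hzz : z + z ≠ 0 := fun e => hz (h2 z e)
  have key : ¬ (z + z = z ∨ z + z = -z) := by
    rintro (e | e)
    · exact hz (by simpa using e)
    · apply hz
      apply h3
      rw [e]; abel
  rcases S.S1 p (ζ (S.F (z + z) p)) with e | e | ⟨u, hu, e⟩
  · exfalso; apply key
    apply S.agree z (z + z) hz hzz p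
    have e1 : S.F z (S.F (z + z) p) = p := by
      apply ζ.injective
      rw [hζ z hz, e, h]
    rw [e1, h, ← hζ _ hzz, e]
  · exfalso; apply key
    apply S.agree z (z + z) hz hzz p
    have e1 : S.F z (S.F (z + z) p) = S.δ p := by
      apply ζ.injective
      rw [hζ z hz, e, ← S.δF z hz, h, S.zδ z hz ζ hζ]
    rw [e1, h, ← hζ _ hzz, e]
  · have c1 : S.c (z + z) z = S.c u z := by
      apply S.inj _ _ (S.F u p) (S.c_ne _ _ hzz hz) (S.c_ne _ _ hu hz)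
      rw [S.conj u z hu hz, h, ← hζ u hu]
      have : S.F u p = S.F (z + z) (ζ p) := by rw [← e, hζ _ hzz]
      rw [this, S.conj _ _ hzz hz, ← hζ z hz, h, ← hζ _ hzz]
    have c2 : S.c u (z + z) = z + z := by
      apply dinj h2
      rw [M3 u z hu hz, ← c1, M4 z z hz hz, S.cself z hz]
    rcases S.agree u (z + z) hu hzz p (by
      rw [← S.conj u (z + z) hu hzz, c2]) with e3 | e3
    · exfalso
      rw [e3] at e
      have := S.zfix z hz ζ hζ _ e p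
      rw [this] at h
      exact S.d2 z p hz h
    · have e4 : u = -(z + z) := by rw [e3, neg_neg]
      rw [hζ _ hzz, hζ _ hzz] at *
      rw [e, e4, S.neg' _ hzz]

theorem claim1 (z : A) (hz : z ≠ 0) (ζ : Equiv.Perm Q)
    (hζ : ∀ y, y ≠ 0 → ∀ p, ζ (S.F y p) = S.F y (ζ p)) (p : Q) : S.F z p ≠ ζ p := by
  intro h
  have hzz : z + z ≠ 0 := fun e => hz (h2 z e)
  have A1 := S.claim1a h2 h3 M3 M4 z hz ζ hζ p h
  have hinv : ∀ y, y ≠ 0 → ∀ p, ζ⁻¹ (S.F y p) = S.F y (ζ⁻¹ p) := by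
    intro y hy p
    rw [Equiv.Perm.inv_eq_iff_eq, hζ y hy, perm_apply_inv]
  have hζ' : ∀ y, y ≠ 0 → ∀ p, (ζ⁻¹ * S.δ) (S.F y p) = S.F y ((ζ⁻¹ * S.δ) p) := by
    intro y hy p
    rw [Equiv.Perm.mul_apply, Equiv.Perm.mul_apply, S.δF y hy, hinv y hy]
  have hneg : S.F (-z) p = (ζ⁻¹ * S.δ) p := by
    rw [Equiv.Perm.mul_apply, Equiv.Perm.eq_inv_iff_eq, hζ _ (neg_ne_zero.mpr hz), ← h,
      S.neg z hz]
  have A2 := S.claim1a h2 h3 M3 M4 (-z) (neg_ne_zero.mpr hz) (ζ⁻¹ * S.δ) hζ' p hneg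
  have e0 : -z + -z = -(z + z) := by abel
  rw [e0, Equiv.Perm.mul_apply, Equiv.Perm.inv_eq_iff_eq, S.zδ z hz ζ hζ] at A2
  have A3 : S.F (-(z + z)) (S.F (-(z + z)) p) = ζ p := S.δ.injective A2
  have A4 := congrArg (fun q => S.F (z + z) (S.F (z + z) q)) A3
  beta_reduce at A4
  rw [S.neg' _ hzz, ← S.δF _ hzz, S.neg' _ hzz, ← hζ _ hzz, ← hζ _ hzz, A1] at A4
  exact S.d1 _ A4

theorem zor (a : A) (ha : a ≠ 0) (ζ : Equiv.Perm Q)
    (hζ : ∀ y, y ≠ 0 → ∀ p, ζ (S.F y p) = S.F y (ζ p)) (p : Q) :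
    ζ p = p ∨ ζ p = S.δ p := by
  rcases S.S1 p (ζ p) with h | h | ⟨x, hx, h⟩
  · exact Or.inl h
  · exact Or.inr h
  · exact absurd h.symm (S.claim1 h2 h3 M3 M4 x hx ζ hζ p)

theorem dd (a : A) (ha : a ≠ 0) (p : Q) : S.δ (S.δ p) = p := by
  rcases S.zor h2 h3 M3 M4 a ha (S.δ * S.δ) (fun y hy p => by
    rw [Equiv.Perm.mul_apply, Equiv.Perm.mul_apply, S.δF y hy, S.δF y hy]) p with h | h
  · exact h
  · exact absurd (S.δ.injective h) (S.d1 p)

theorem sq (x : A) (hx : x ≠ 0) (p : Q) : S.F x (S.F x p) = p := by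
  rcases S.zor h2 h3 M3 M4 x hx (S.F x * S.F x) (fun y hy p => by
    rw [Equiv.Perm.mul_apply, Equiv.Perm.mul_apply, S.sq_comm x y hx hy]) p with h | h
  · exact h
  · exfalso
    rw [Equiv.Perm.mul_apply, ← S.neg' x hx p] at h
    have := S.inj _ _ p hx (neg_ne_zero.mpr hx) ((S.F x).injective h)
    apply hx
    apply h2
    nth_rw 2 [this]
    abel

theorem Fneg (x : A) (hx : x ≠ 0) (p : Q) : S.F (-x) p = S.δ (S.F x p) := by
  have := S.neg x hx (S.F x p)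
  rwa [S.sq h2 h3 M3 M4 x hx] at this

theorem kap (z : A) (hz : z ≠ 0) (x : A) (hx : x ≠ 0) (r : Q) :
    S.F (z + z) (S.F z (S.F x r)) = S.F (x + x + (x + x)) (S.F (z + z) (S.F z r)) := by
  have hzz : z + z ≠ 0 := fun e => hz (h2 z e)
  rw [← S.conj z x hz hx, ← S.conj (z + z) _ hzz (S.c_ne _ _ hz hx), M4 z _ hz (S.c_ne _ _ hz hx),
    S.cc z x hz hx]

theorem no_odd (hs : ∀ x : A, ∃ y, y + y = x) (hA : ∃ a : A, a ≠ 0) (p : Q) : False := by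
  obtain ⟨a, ha⟩ := hA
  obtain ⟨κ, hκ⟩ : ∃ κ : Equiv.Perm Q, κ = S.F (a + a) * S.F a := ⟨_, rfl⟩
  have k1 : ∀ x : A, x ≠ 0 → ∀ r, κ (S.F x r) = S.F (x + x + (x + x)) (κ r) := by
    intro x hx r
    rw [hκ]
    exact S.kap h2 h3 M3 M4 a ha x hx r
  have h4 : ∀ x : A, x ≠ 0 → x + x + (x + x) ≠ 0 := fun x hx e => hx (h2 _ (h2 _ e))
  -- comparison of κ and κ_z
  have k2 : ∀ z, z ≠ 0 → ∀ q, S.F (z + z) (S.F z q) = κ q ∨ S.F (z + z) (S.F z q) = κ (S.δ q) := by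
    intro z hz q
    have hc : ∀ y, y ≠ 0 → ∀ p, (κ⁻¹ * (S.F (z + z) * S.F z)) (S.F y p)
        = S.F y ((κ⁻¹ * (S.F (z + z) * S.F z)) p) := by
      intro y hy p
      change κ⁻¹ (S.F (z + z) (S.F z (S.F y p))) = S.F y (κ⁻¹ (S.F (z + z) (S.F z p)))
      rw [Equiv.Perm.inv_eq_iff_eq, k1 y hy, perm_apply_inv κ]
      exact S.kap h2 h3 M3 M4 z hz y hy p
    rcases S.zor h2 h3 M3 M4 a ha _ hc q with h | h
    · left
      rwa [Equiv.Perm.mul_apply, Equiv.Perm.inv_eq_iff_eq] at h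
    · right
      rwa [Equiv.Perm.mul_apply, Equiv.Perm.inv_eq_iff_eq] at h
  have k3 : ∀ q, κ q = q ∨ κ q = S.δ q := by
    intro q
    rcases S.S1 q (κ q) with h | h | ⟨u, hu, h⟩
    · exact Or.inl h
    · exact Or.inr h
    · exfalso
      obtain ⟨z, rfl⟩ := hs u
      have hz : z ≠ 0 := by rintro rfl; exact hu (by simp)
      rcases k2 z hz (S.F z q) with e | e
      · rw [S.sq h2 h3 M3 M4 z hz, ← h] at e
        exact S.d2 z q hz (κ.injective e).symm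
      · rw [S.sq h2 h3 M3 M4 z hz, ← h] at e
        have e1 := κ.injective e
        have e2 := congrArg S.δ e1
        rw [S.dd h2 h3 M3 M4 a ha] at e2
        exact S.d3 z q hz e2.symm
  have k5 : ∀ x : A, x ≠ 0 → x + x + (x + x) = -x := by
    intro x hx
    have e := k1 x hx p
    have n1 : x ≠ x + x + (x + x) := by
      intro h
      apply hx
      apply h3
      have : x + (x + x + x) = x + 0 := by rw [add_zero]; nth_rw 5 [h]; abel
      exact add_left_cancel this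
    have alt : S.F x p = S.F (x + x + (x + x)) p ∨ S.F (-x) p = S.F (x + x + (x + x)) p := by
      have hδ : ∀ q, S.δ (S.δ q) = q := S.dd h2 h3 M3 M4 a ha
      rw [S.Fneg h2 h3 M3 M4 x hx]
      rcases k3 (S.F x p) with e1 | e1 <;> rcases k3 p with e2 | e2 <;> rw [e1, e2] at e
      · exact Or.inl e
      · right
        rw [e, ← S.δF _ (h4 x hx), hδ]
      · exact Or.inr e
      · left
        rw [← S.δF _ (h4 x hx)] at e
        exact S.δ.injective e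
    rcases alt with e1 | e1
    · exact absurd (S.inj _ _ p hx (h4 x hx) e1) n1
    · exact (S.inj _ _ p (neg_ne_zero.mpr hx) (h4 x hx) e1).symm
  have k6 : ∀ x, x ≠ 0 → ∀ r, κ (S.F x r) = S.δ (S.F x (κ r)) := by
    intro x hx r
    rw [k1 x hx, k5 x hx, S.Fneg h2 h3 M3 M4 x hx]
  have haa : a + a ≠ 0 := fun e => ha (h2 a e)
  rcases S.S1 (S.F a p) (S.F (a + a) p) with e | e | ⟨z, hz, e⟩
  · have := S.inj _ _ p haa ha e
    exact ha (by simpa using this)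
  · rw [← S.Fneg h2 h3 M3 M4 a ha] at e
    have := S.inj _ _ p haa (neg_ne_zero.mpr ha) e
    apply ha
    apply h3
    rw [this]; abel
  · have hδ : ∀ q, S.δ (S.δ q) = q := S.dd h2 h3 M3 M4 a ha
    rcases k3 p with e2 | e2
    · have f1 := k6 a ha p
      have f2 := k6 (a + a) haa p
      rw [e2] at f1 f2
      have f3 := k6 z hz (S.F a p)
      rw [← e, f1, ← S.δF z hz, ← e, f2, hδ] at f3
      exact S.d1 _ f3
    · have f1 := k6 a ha p
      have f2 := k6 (a + a) haa p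
      rw [e2, ← S.δF a ha, hδ] at f1
      rw [e2, ← S.δF _ haa, hδ] at f2
      have f3 := k6 z hz (S.F a p)
      rw [← e, f1, ← e, f2] at f3
      exact S.d1 _ f3.symm

end odd

end Sys

end Pool.Agent.Helper359.LB
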