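import Mathlib

set_option autoImplicit false

namespace Pool.Agent.Helper359.LB

/-- A group acting on `Ω` with a conjugation-invariant family of commutative regular subgroups
satisfying the braid relation. -/
structure Mou (G Ω : Type*) [Group G] [MulAction G Ω] where
  U : Ω → Subgroup G
  fix : ∀ x, ∀ u ∈ U x, u • x = x
  conj : ∀ (g : G) (x : Ω), ∀ u ∈ U x, g * u * g⁻¹ ∈ U (g • x)
  trans : ∀ x y z, y ≠ x → z ≠ x → ∃ u ∈ U x, u • y = z
  free : ∀ x y, y ≠ x → ∀ u ∈ U x, u • y = y → u = 1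
  comm : ∀ x, ∀ u ∈ U x, ∀ v ∈ U x, u * v = v * u
  special : ∀ x y, x ≠ y → ∀ u ∈ U x, ∀ v ∈ U y, u • v • x = y →
    u * v * u = v * u * v ∧ v⁻¹ • x = u • y

namespace Mou

variable {G Ω : Type*} [Group G] [MulAction G Ω] (M : Mou G Ω)

/-- The group `U i`, written additively. -/
def Pt (i : Ω) : Type _ := Additive (M.U i)

noncomputable instance (i : Ω) : AddCommGroup (M.Pt i) :=
  @Additive.addCommGroup (M.U i)
    { (inferInstance : Group (M.U i)) with
      mul_comm := fun a b => Subtype.ext (M.comm i a.1 a.2 b.1 b.2) }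

variable {i o : Ω}

/-- The element of the group attached to a point. -/
def al (a : M.Pt i) : G := ((Additive.toMul a : M.U i) : G)

theorem al_mem (a : M.Pt i) : M.al a ∈ M.U i := (Additive.toMul a : M.U i).2

theorem al_add (a b : M.Pt i) : M.al (a + b) = M.al a * M.al b := rfl

theorem al_zero : M.al (0 : M.Pt i) = 1 := rfl

theorem al_neg (a : M.Pt i) : M.al (-a) = (M.al a)⁻¹ := rfl

theorem al_inj {a b : M.Pt i} (h : M.al a = M.al b) : a = b := Subtype.ext h

theorem al_fix (a : M.Pt i) : M.al a • i = i := M.fix i _ (M.al_mem a)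

variable (o) in
/-- The point attached to a group element. -/
def j (a : M.Pt i) : Ω := M.al a • o

theorem j_zero : M.j o (0 : M.Pt i) = o := by
  rw [j, al_zero, one_smul]

theorem al_j (a b : M.Pt i) : M.al a • M.j o b = M.j o (a + b) := by
  rw [j, j, al_add, mul_smul]

theorem al_o (a : M.Pt i) : M.al a • o = M.j o a := rfl

theorem al_uniq (hio : o ≠ i) (u : G) (hu : u ∈ M.U i) (a : M.Pt i) (h : u • o = M.j o a) :
    u = M.al a := by
  have h1 : u⁻¹ * M.al a = 1 := by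
    apply M.free i o hio _ (Subgroup.mul_mem _ (Subgroup.inv_mem _ hu) (M.al_mem a))
    rw [mul_smul, al_o, ← h, inv_smul_smul]
  exact inv_mul_eq_one.mp h1

theorem j_inj (hio : o ≠ i) {a b : M.Pt i} (h : M.j o a = M.j o b) : a = b :=
  M.al_inj (M.al_uniq hio _ (M.al_mem a) b h)

theorem j_ne (hio : o ≠ i) (a : M.Pt i) : M.j o a ≠ i := by
  intro h
  exact hio (smul_left_cancel (M.al a)
    ((show M.al a • o = i from h).trans (M.al_fix a).symm))

theorem j_surj (hio : o ≠ i) (z : Ω) (hz : z ≠ i) : ∃ a : M.Pt i, M.j o a = z := by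
  obtain ⟨u, hu, h⟩ := M.trans i o z hio hz
  exact ⟨Additive.ofMul (⟨u, hu⟩ : M.U i), h⟩

theorem j_ne_o (hio : o ≠ i) {a : M.Pt i} (ha : a ≠ 0) : M.j o a ≠ o := by
  intro h
  apply ha
  apply M.j_inj hio
  rw [h, j_zero]

open Classical in
variable (o) in
/-- The element of `U o` moving `i` to the point of `a`. -/
noncomputable def g (a : M.Pt i) : G :=
  if h : ∃ u ∈ M.U o, u • i = M.j o a then Classical.choose h else 1

theorem g_spec (hio : o ≠ i) {a : M.Pt i} (ha : a ≠ 0) :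
    M.g o a ∈ M.U o ∧ M.g o a • i = M.j o a := by
  have h : ∃ u ∈ M.U o, u • i = M.j o a := M.trans o i (M.j o a) hio.symm (M.j_ne_o hio ha)
  rw [g, dif_pos h]
  exact Classical.choose_spec h

theorem g_uniq (hio : o ≠ i) (u : G) (hu : u ∈ M.U o) {a : M.Pt i} (ha : a ≠ 0)
    (h : u • i = M.j o a) : u = M.g o a := by
  obtain ⟨h1, h2⟩ := M.g_spec hio ha
  have h1 : u⁻¹ * M.g o a = 1 := by
    apply M.free o i hio.symm _ (Subgroup.mul_mem _ (Subgroup.inv_mem _ hu) h1)
    rw [mul_smul, h2, ← h, inv_smul_smul]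
  exact inv_mul_eq_one.mp h1

theorem g_inj (hio : o ≠ i) {a b : M.Pt i} (ha : a ≠ 0) (hb : b ≠ 0) (h : M.g o a = M.g o b) :
    a = b := by
  apply M.j_inj hio
  rw [← (M.g_spec hio ha).2, ← (M.g_spec hio hb).2, h]

theorem g_comm (hio : o ≠ i) {a b : M.Pt i} (ha : a ≠ 0) (hb : b ≠ 0) :
    M.g o a * M.g o b = M.g o b * M.g o a :=
  M.comm o _ (M.g_spec hio ha).1 _ (M.g_spec hio hb).1

theorem g_neg' (hio : o ≠ i) {a : M.Pt i} (ha : a ≠ 0) :
    M.al a * M.g o (-a) * M.al a = M.g o (-a) * M.al a * M.g o (-a) ∧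
      (M.g o (-a))⁻¹ = M.g o a := by
  have hna : -a ≠ 0 := neg_ne_zero.mpr ha
  obtain ⟨h1, h2⟩ := M.special i o hio.symm (M.al a) (M.al_mem a) (M.g o (-a))
    (M.g_spec hio hna).1 (by rw [(M.g_spec hio hna).2, al_j, add_neg_cancel, j_zero])
  refine ⟨h1, ?_⟩
  exact M.g_uniq hio _ (Subgroup.inv_mem _ (M.g_spec hio hna).1) ha h2

theorem g_neg (hio : o ≠ i) {a : M.Pt i} (ha : a ≠ 0) : M.g o (-a) = (M.g o a)⁻¹ := by
  rw [← (M.g_neg' hio ha).2, inv_inv]

variable (o) in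
/-- The elements interchanging `i` and `o`. -/
noncomputable def n (a : M.Pt i) : G := (M.al a)⁻¹ * M.g o a * (M.al a)⁻¹

theorem n_eq (hio : o ≠ i) {a : M.Pt i} (ha : a ≠ 0) :
    M.n o a = M.g o a * (M.al a)⁻¹ * M.g o a := by
  have h := (M.g_neg' hio ha).1
  rw [M.g_neg hio ha] at h
  have h' := congrArg (fun x => x⁻¹) h
  simp only [mul_inv_rev, inv_inv] at h'
  rw [n, mul_assoc, h', mul_assoc]

theorem n_neg (hio : o ≠ i) {a : M.Pt i} (ha : a ≠ 0) : M.n o (-a) = (M.n o a)⁻¹ := by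
  rw [n, n, M.g_neg hio ha, al_neg]; group

theorem n_i (hio : o ≠ i) {a : M.Pt i} (ha : a ≠ 0) : M.n o a • i = o := by
  rw [n, mul_smul, mul_smul, ← al_neg, al_fix, (M.g_spec hio ha).2, al_j, neg_add_cancel, j_zero]

theorem n_o (hio : o ≠ i) {a : M.Pt i} (ha : a ≠ 0) : M.n o a • o = i := by
  have h := M.n_i hio (neg_ne_zero.mpr ha)
  rw [M.n_neg hio ha, inv_smul_eq_iff] at h
  exact h.symm

theorem g_o (hio : o ≠ i) {a : M.Pt i} (ha : a ≠ 0) : M.g o a • o = o :=
  M.fix o _ (M.g_spec hio ha).1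

theorem n_self (hio : o ≠ i) {a : M.Pt i} (ha : a ≠ 0) : M.n o a • M.j o a = M.j o (-a) := by
  rw [n, mul_smul, mul_smul, ← al_neg, al_j, neg_add_cancel, j_zero, M.g_o hio ha, al_o]

theorem N_exists (hio : o ≠ i) {a y : M.Pt i} (ha : a ≠ 0) (hy : y ≠ 0) :
    ∃ b : M.Pt i, M.j o b = M.n o a • M.j o y := by
  apply M.j_surj hio
  intro h
  exact M.j_ne_o hio hy (smul_left_cancel (M.n o a) (h.trans (M.n_o hio ha).symm))

open Classical in
variable (o) in
/-- The action of the interchanging elements on the remaining points. -/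
noncomputable def N (a y : M.Pt i) : M.Pt i :=
  if h : ∃ b : M.Pt i, M.j o b = M.n o a • M.j o y then Classical.choose h else 0

theorem j_N (hio : o ≠ i) {a y : M.Pt i} (ha : a ≠ 0) (hy : y ≠ 0) :
    M.j o (M.N o a y) = M.n o a • M.j o y := by
  rw [N, dif_pos (M.N_exists hio ha hy)]
  exact Classical.choose_spec (M.N_exists hio ha hy)

theorem N_ne (hio : o ≠ i) {a y : M.Pt i} (ha : a ≠ 0) (hy : y ≠ 0) : M.N o a y ≠ 0 := by
  intro h
  have := M.j_N hio ha hy
  rw [h, j_zero] at this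
  exact M.j_ne hio y (smul_left_cancel (M.n o a) (this.symm.trans (M.n_i hio ha).symm))

theorem conj1 (hio : o ≠ i) {a y : M.Pt i} (ha : a ≠ 0) (hy : y ≠ 0) :
    M.n o a * M.al y * (M.n o a)⁻¹ = M.g o (M.N o a y) := by
  apply M.g_uniq hio _ _ (M.N_ne hio ha hy)
  · rw [M.j_N hio ha hy, mul_smul, mul_smul, ← M.n_neg hio ha, M.n_i hio (neg_ne_zero.mpr ha),
      al_o]
  · have := M.conj (M.n o a) i (M.al y) (M.al_mem y)
    rwa [M.n_i hio ha] at this

theorem conj2 (hio : o ≠ i) {a y : M.Pt i} (ha : a ≠ 0) (hy : y ≠ 0) :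
    M.n o a * M.g o y * (M.n o a)⁻¹ = M.al (M.N o a y) := by
  apply M.al_uniq hio
  · have := M.conj (M.n o a) o (M.g o y) (M.g_spec hio hy).1
    rwa [M.n_o hio ha] at this
  · rw [M.j_N hio ha hy, mul_smul, mul_smul, ← M.n_neg hio ha, M.n_o hio (neg_ne_zero.mpr ha),
      (M.g_spec hio hy).2]

theorem N_neg (hio : o ≠ i) {a y : M.Pt i} (ha : a ≠ 0) (hy : y ≠ 0) :
    M.N o a (-y) = -M.N o a y := by
  apply M.al_inj
  rw [← M.conj2 hio ha (neg_ne_zero.mpr hy), al_neg, ← M.conj2 hio ha hy, M.g_neg hio hy]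
  group

theorem n_conj (hio : o ≠ i) {a y : M.Pt i} (ha : a ≠ 0) (hy : y ≠ 0) :
    M.n o a * M.n o y * (M.n o a)⁻¹ = M.n o (-M.N o a y) := by
  have hN := M.N_ne hio ha hy
  rw [M.n_eq hio (neg_ne_zero.mpr hN), M.g_neg hio hN, al_neg, ← M.conj1 hio ha hy,
    ← M.conj2 hio ha hy]
  have hn : M.n o y = (M.al y)⁻¹ * M.g o y * (M.al y)⁻¹ := rfl
  rw [hn]
  group

theorem N_self (hio : o ≠ i) {a : M.Pt i} (ha : a ≠ 0) : M.N o a a = -a := by
  apply M.j_inj hio
  rw [M.j_N hio ha ha, M.n_self hio ha]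

theorem R1 (hio : o ≠ i) {x y : M.Pt i} (hx : x ≠ 0) (hy : y ≠ 0) :
    M.j o (x + M.N o x y) = M.g o x • M.j o (y - x) := by
  rw [← al_j, M.j_N hio hx hy, n, mul_smul, mul_smul, smul_inv_smul, ← al_neg, al_j,
    sub_eq_neg_add]

theorem R2 (hio : o ≠ i) {x y : M.Pt i} (hx : x ≠ 0) (hy : y ≠ 0) (hxy : y ≠ x) :
    x + M.N o x y ≠ 0 ∧ M.g o x * M.g o (y - x) = M.g o (x + M.N o x y) := by
  have hd : y - x ≠ 0 := sub_ne_zero.mpr hxy
  have h1 := M.R1 hio hx hy
  have h2 : x + M.N o x y ≠ 0 := by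
    intro h
    rw [h, j_zero] at h1
    have h3 := M.g_o hio hx
    have h4 := smul_left_cancel _ (h3.trans h1)
    exact M.j_ne_o hio hd h4.symm
  refine ⟨h2, ?_⟩
  apply M.g_uniq hio _ _ h2
  · rw [h1, mul_smul, (M.g_spec hio hd).2]
  · exact Subgroup.mul_mem _ (M.g_spec hio hx).1 (M.g_spec hio hd).1

theorem N_neg_left (hio : o ≠ i) {x y : M.Pt i} (hx : x ≠ 0) (hy : y ≠ 0) :
    M.N o (-x) y = M.N o x y := by
  have hx' := neg_ne_zero.mpr hx
  have hy' := neg_ne_zero.mpr hy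
  by_cases hxy : y = x
  · subst hxy
    have h := M.N_self hio hx'
    rw [M.N_neg hio hx' hx, neg_neg] at h
    rw [M.N_self hio hx]
    exact neg_eq_iff_eq_neg.mp h
  · obtain ⟨a1, a2⟩ := M.R2 hio hx hy hxy
    obtain ⟨b1, b2⟩ := M.R2 hio hx' hy' (fun h => hxy (neg_injective h))
    have hd : y - x ≠ 0 := sub_ne_zero.mpr hxy
    have e : -y - -x = -(y - x) := by abel
    rw [e, M.g_neg hio hx, M.g_neg hio hd] at b2
    have a3 : (M.g o x)⁻¹ * (M.g o (y - x))⁻¹ = M.g o (-(x + M.N o x y)) := by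
      rw [M.g_neg hio a1, ← a2, mul_inv_rev, ← M.g_neg hio hx, ← M.g_neg hio hd]
      exact M.g_comm hio hx' (neg_ne_zero.mpr hd)
    rw [a3] at b2
    have := M.g_inj hio (neg_ne_zero.mpr a1) b1 b2
    rw [M.N_neg hio hx' hy] at this
    have h3 : x + M.N o x y = x + M.N o (-x) y := by
      have := congrArg (fun t => -t) this
      simp only [neg_neg, neg_add_rev] at this
      rw [this]; abel
    exact (add_left_cancel h3).symm

theorem N_N (hio : o ≠ i) {x y : M.Pt i} (hx : x ≠ 0) (hy : y ≠ 0) :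
    M.N o x (M.N o x y) = y := by
  rw [← M.N_neg_left hio hx (M.N_ne hio hx hy)]
  apply M.j_inj hio
  rw [M.j_N hio (neg_ne_zero.mpr hx) (M.N_ne hio hx hy), M.j_N hio hx hy, M.n_neg hio hx,
    inv_smul_smul]

/-- The map `c` of the abstract system. -/
theorem cc (hio : o ≠ i) {x y : M.Pt i} (hx : x ≠ 0) (hy : y ≠ 0) :
    -M.N o x (-M.N o x y) = y := by
  rw [M.N_neg hio hx (M.N_ne hio hx hy), neg_neg, M.N_N hio hx hy]

theorem M2 (hio : o ≠ i) {a b : M.Pt i} (ha : a ≠ 0) (hb : b ≠ 0) (h1 : -M.N o a b = b)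
    (h2 : -M.N o b a = a) : b = a ∨ b = -a := by
  by_cases hab : b = a
  · exact Or.inl hab
  · right
    have hd : b - a ≠ 0 := sub_ne_zero.mpr hab
    have e1 := (M.R2 hio ha hb hab).2
    have e2 := (M.R2 hio hb ha (Ne.symm hab)).2
    have h1' : M.N o a b = -b := by rw [← neg_eq_iff_eq_neg]; exact h1
    have h2' : M.N o b a = -a := by rw [← neg_eq_iff_eq_neg]; exact h2
    have f1 : a + -b = -(b - a) := by abel
    have f2 : b + -a = b - a := by abel
    have f3 : a - b = -(b - a) := by abel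
    rw [h1', f1, M.g_neg hio hd] at e1
    rw [h2', f2, f3, M.g_neg hio hd] at e2
    have e3 : M.g o a = M.g o (-b) := by
      rw [M.g_neg hio hb]
      have e4 : M.g o b = M.g o (b - a) * M.g o (b - a) := by
        rw [mul_inv_eq_iff_eq_mul] at e2; exact e2
      have e5 : M.g o a = (M.g o (b - a))⁻¹ * (M.g o (b - a))⁻¹ := by
        rw [← eq_mul_inv_iff_mul_eq] at e1; exact e1
      rw [e4, e5, mul_inv_rev]
    have := M.g_inj hio ha (neg_ne_zero.mpr hb) e3
    rw [this, neg_neg]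

theorem D (hio : o ≠ i) {x : M.Pt i} (hx : x + x ≠ 0) :
    M.g o (x + x) * M.g o (x + x) = M.g o x := by
  have hx0 : x ≠ 0 := by rintro rfl; exact hx (by simp)
  have hx' := neg_ne_zero.mpr hx0
  have hne : x ≠ -x := fun h => hx (by nth_rw 1 [h]; exact neg_add_cancel x)
  have e := (M.R2 hio hx' hx0 hne).2
  rw [M.N_neg_left hio hx0 hx0, M.N_self hio hx0, sub_neg_eq_add] at e
  have f : -x + -x = -(x + x) := by abel
  rw [f, M.g_neg hio hx0, M.g_neg hio hx] at e
  rw [inv_mul_eq_iff_eq_mul, eq_mul_inv_iff_mul_eq] at e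
  exact e

theorem dich2 (hio : o ≠ i) : (∀ x : M.Pt i, x + x = 0) ∨ (∀ x : M.Pt i, x + x = 0 → x = 0) := by
  by_contra hcon
  push Not at hcon
  obtain ⟨⟨x, hx⟩, b, hb1, hb2⟩ := hcon
  have hx0 : x ≠ 0 := by rintro rfl; exact hx (by simp)
  have e0 : (x + b) + (x + b) = x + x := by
    calc (x + b) + (x + b) = (x + x) + (b + b) := by abel
      _ = x + x := by rw [hb1, add_zero]
  have h1 := M.D hio hx
  have h2 := M.D (o := o) hio (x := x + b) (by rw [e0]; exact hx)
  rw [e0, h1] at h2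
  have hxb : x + b ≠ 0 := by
    intro h
    rw [h, add_zero] at e0
    exact hx e0.symm
  have := M.g_inj hio hx0 hxb h2
  exact hb2 (by simpa using this.symm)

theorem sqinj (hio : o ≠ i) (h2 : ∀ x : M.Pt i, x + x = 0 → x = 0) {a b : M.Pt i} (ha : a ≠ 0)
    (hb : b ≠ 0) (h : M.g o a * M.g o a = M.g o b * M.g o b) : a = b := by
  by_contra hab
  have hgab : M.g o a ≠ M.g o b := fun e => hab (M.g_inj hio ha hb e)
  set u := M.g o a * (M.g o b)⁻¹ with hu
  have hu1 : u ≠ 1 := by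
    intro e
    exact hgab (by rwa [hu, mul_inv_eq_one] at e)
  have humem : u ∈ M.U o :=
    Subgroup.mul_mem _ (M.g_spec hio ha).1 (Subgroup.inv_mem _ (M.g_spec hio hb).1)
  have hui : u • i ≠ i := fun e => hu1 (M.free o i hio.symm u humem e)
  obtain ⟨c, hc⟩ := M.j_surj (o := o) hio (u • i) hui
  have hc0 : c ≠ 0 := by
    rintro rfl
    rw [j_zero] at hc
    have h3 := M.fix o u humem
    have := smul_left_cancel u (h3.trans hc)
    exact hio this
  have hug : u = M.g o c := M.g_uniq hio u humem hc0 hc.symm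
  have huu : u * u = 1 := by
    have hc2 : (M.g o b)⁻¹ * M.g o a = M.g o a * (M.g o b)⁻¹ := by
      have := M.g_comm hio ha hb
      rw [inv_mul_eq_iff_eq_mul, ← mul_assoc, ← this, mul_assoc, mul_inv_cancel, mul_one]
    calc u * u = M.g o a * ((M.g o b)⁻¹ * M.g o a) * (M.g o b)⁻¹ := by rw [hu]; group
      _ = (M.g o a * M.g o a) * ((M.g o b)⁻¹ * (M.g o b)⁻¹) := by rw [hc2]; group
      _ = 1 := by rw [h]; group
  have huinv : M.g o c = M.g o (-c) := by
    rw [M.g_neg hio hc0, ← hug]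
    exact eq_inv_of_mul_eq_one_left huu
  have := M.g_inj hio hc0 (neg_ne_zero.mpr hc0) huinv
  apply hc0
  apply h2
  nth_rw 1 [this]
  exact neg_add_cancel c

theorem M3 (hio : o ≠ i) (h2 : ∀ x : M.Pt i, x + x = 0 → x = 0) {x y : M.Pt i} (hx : x ≠ 0)
    (hy : y ≠ 0) : M.N o x (y + y) + M.N o x (y + y) = M.N o x y := by
  have hyy : y + y ≠ 0 := fun h => hy (h2 y h)
  have hw := M.N_ne hio hx hyy
  have hww : M.N o x (y + y) + M.N o x (y + y) ≠ 0 := fun h => hw (h2 _ h)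
  apply M.sqinj hio h2 hww (M.N_ne hio hx hy)
  rw [M.D hio hww, ← M.conj1 hio hx hyy, ← M.conj1 hio hx hy, al_add]
  group

theorem M3b (hio : o ≠ i) (h2 : ∀ x : M.Pt i, x + x = 0 → x = 0) {x y : M.Pt i} (hx : x ≠ 0)
    (hy : y ≠ 0) : M.N o (x + x) (y + y) = M.N o x y + M.N o x y := by
  have hxx : x + x ≠ 0 := fun h => hx (h2 x h)
  have hyy : y + y ≠ 0 := fun h => hy (h2 y h)
  by_cases hxy : y = x
  · subst hxy
    rw [M.N_self hio hxx, M.N_self hio hx]; abel
  · have hd : y - x ≠ 0 := sub_ne_zero.mpr hxy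
    have hdd : (y - x) + (y - x) ≠ 0 := fun h => hd (h2 _ h)
    have e0 : (y + y) - (x + x) = (y - x) + (y - x) := by abel
    have hne : y + y ≠ x + x := by
      intro h
      apply hdd
      rw [← e0, h, sub_self]
    obtain ⟨a1, a2⟩ := M.R2 hio hxx hyy hne
    obtain ⟨b1, b2⟩ := M.R2 hio hx hy hxy
    rw [e0] at a2
    have hbb : (x + M.N o x y) + (x + M.N o x y) ≠ 0 := fun h => b1 (h2 _ h)
    have key : x + x + M.N o (x + x) (y + y) = (x + M.N o x y) + (x + M.N o x y) := by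
      apply M.sqinj hio h2 a1 hbb
      rw [M.D hio hbb, ← b2, ← a2]
      have hc := M.g_comm hio hxx hdd
      calc M.g o (x + x) * M.g o (y - x + (y - x)) * (M.g o (x + x) * M.g o (y - x + (y - x)))
          = M.g o (x + x) * (M.g o (y - x + (y - x)) * M.g o (x + x))
              * M.g o (y - x + (y - x)) := by group
        _ = (M.g o (x + x) * M.g o (x + x))
              * (M.g o (y - x + (y - x)) * M.g o (y - x + (y - x))) := by rw [← hc]; group
        _ = M.g o x * M.g o (y - x) := by rw [M.D hio hxx, M.D hio hdd]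
    have e1 : (x + M.N o x y) + (x + M.N o x y) = x + x + (M.N o x y + M.N o x y) := by abel
    rw [e1] at key
    exact add_left_cancel key

theorem M4 (hio : o ≠ i) (h2 : ∀ x : M.Pt i, x + x = 0 → x = 0) {x y : M.Pt i} (hx : x ≠ 0)
    (hy : y ≠ 0) :
    M.N o (x + x) y = M.N o x y + M.N o x y + (M.N o x y + M.N o x y) := by
  have hxx : x + x ≠ 0 := fun h => hx (h2 x h)
  rw [← M.M3 hio h2 hxx hy, M.M3b hio h2 hx hy]

theorem T (hio : o ≠ i) (h2 : ∀ x : M.Pt i, x + x = 0 → x = 0) {x : M.Pt i}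
    (h3 : x + x + x ≠ 0) :
    M.g o (x + x + x) * M.g o (x + x + x) * M.g o (x + x + x) = M.g o x := by
  have hx : x ≠ 0 := by rintro rfl; exact h3 (by simp)
  have hxx : x + x ≠ 0 := fun h => hx (h2 x h)
  have hx' := neg_ne_zero.mpr hx
  set m := x + M.N o x (x + x) with hm
  have hmm : m + m = x := by
    have := M.M3 hio h2 hx hx
    rw [M.N_self hio hx] at this
    calc m + m = (x + x) + (M.N o x (x + x) + M.N o x (x + x)) := by rw [hm]; abel
      _ = x := by rw [this]; abel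
  have h3m : m + m + m + (m + m + m) = x + x + x := by
    calc m + m + m + (m + m + m) = (m + m) + (m + m) + (m + m) := by abel
      _ = x + x + x := by rw [hmm]
  have h3m0 : m + m + m ≠ 0 := by
    intro h
    rw [h, add_zero] at h3m
    exact h3 h3m.symm
  have hne : x + x ≠ -x := by
    intro h
    apply h3
    rw [h]; abel
  have e := (M.R2 hio hx' hxx hne).2
  rw [M.N_neg_left hio hx hxx] at e
  have f1 : x + x - -x = x + x + x := by abel
  have f2 : -x + M.N o x (x + x) = -(m + m + m) := by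
    have : M.N o x (x + x) = m - x := by rw [hm]; abel
    rw [this]
    calc -x + (m - x) = m - (x + x) := by abel
      _ = m - (m + m + (m + m)) := by rw [hmm]
      _ = -(m + m + m) := by abel
  rw [f1, f2, M.g_neg hio hx, M.g_neg hio h3m0] at e
  have hD := M.D (o := o) hio (x := m + m + m) (by rw [h3m]; exact h3)
  rw [h3m] at hD
  rw [← hD, inv_mul_eq_iff_eq_mul, mul_inv_rev, ← mul_assoc, eq_mul_inv_iff_mul_eq,
    eq_mul_inv_iff_mul_eq] at e
  exact e

theorem dich3 (hio : o ≠ i) (h2 : ∀ x : M.Pt i, x + x = 0 → x = 0) :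
    (∀ x : M.Pt i, x + x + x = 0) ∨ (∀ x : M.Pt i, x + x + x = 0 → x = 0) := by
  by_contra hcon
  push Not at hcon
  obtain ⟨⟨x, hx⟩, b, hb1, hb2⟩ := hcon
  have hx0 : x ≠ 0 := by rintro rfl; exact hx (by simp)
  have e0 : (x + b) + (x + b) + (x + b) = x + x + x := by
    calc (x + b) + (x + b) + (x + b) = (x + x + x) + (b + b + b) := by abel
      _ = x + x + x := by rw [hb1, add_zero]
  have h1 := M.T hio h2 hx
  have h4 := M.T (o := o) hio h2 (x := x + b) (by rw [e0]; exact hx)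
  rw [e0, h1] at h4
  have hxb : x + b ≠ 0 := by
    intro h
    rw [h, add_zero, add_zero] at e0
    exact hx e0.symm
  have := M.g_inj hio hx0 hxb h4
  exact hb2 (by simpa using this.symm)

theorem dsurj (hio : o ≠ i) (h2 : ∀ x : M.Pt i, x + x = 0 → x = 0) (x : M.Pt i) :
    ∃ y, y + y = x := by
  by_cases hx : x = 0
  · exact ⟨0, by rw [hx, add_zero]⟩
  · refine ⟨M.N o x (M.N o x x + M.N o x x), ?_⟩
    rw [M.M3 hio h2 hx (M.N_ne hio hx hx), M.N_N hio hx hx]

end Mou

end Pool.Agent.Helper359.LB
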