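import Mathlib
set_option autoImplicit false
open Configuration

namespace Pool.Agent.Helper359.LB

theorem three_points_aux {P L : Type*} [Membership P L] [ProjectivePlane P L] (l : L) (p : P)
    (hp : p ∉ l) (hD : ∃ a b c : L, p ∈ a ∧ p ∈ b ∧ p ∈ c ∧ a ≠ b ∧ a ≠ c ∧ b ≠ c) :
    ∃ a b c : P, a ∈ l ∧ b ∈ l ∧ c ∈ l ∧ a ≠ b ∧ a ≠ c ∧ b ≠ c := by
  obtain ⟨a, b, c, ha, hb, hc, hab, hac, hbc⟩ := hD
  have key : ∀ m : L, p ∈ m → ∃ x : P, x ∈ l ∧ x ∈ m := by
    intro m hm
    have hne : l ≠ m := by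
      intro h
      rw [h] at hp
      exact hp hm
    exact ⟨HasPoints.mkPoint hne, (HasPoints.mkPoint_ax hne).1, (HasPoints.mkPoint_ax hne).2⟩
  have key2 : ∀ (m m' : L) (x x' : P), p ∈ m → p ∈ m' → m ≠ m' → x ∈ l → x ∈ m → x' ∈ m' →
      x ≠ x' := by
    intro m m' x x' hm hm' hne hxl hxm hxm' hxx
    rw [← hxx] at hxm'
    rcases Nondegenerate.eq_or_eq hm hxm hm' hxm' with h | h
    · rw [← h] at hxl
      exact hp hxl
    · exact hne h
  obtain ⟨x, hx1, hx2⟩ := key a ha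
  obtain ⟨y, hy1, hy2⟩ := key b hb
  obtain ⟨z, hz1, hz2⟩ := key c hc
  exact ⟨x, y, z, hx1, hy1, hz1, key2 a b x y ha hb hab hx1 hx2 hy2,
    key2 a c x z ha hc hac hx1 hx2 hz2, key2 b c y z hb hc hbc hy1 hy2 hz2⟩

theorem three_points_aux' {P L : Type*} [Membership P L] [ProjectivePlane P L] (l : L) (p : P)
    (hp : p ∉ l) (hT : ∃ a b c : P, a ∈ l ∧ b ∈ l ∧ c ∈ l ∧ a ≠ b ∧ a ≠ c ∧ b ≠ c) :
    ∃ a b c : L, p ∈ a ∧ p ∈ b ∧ p ∈ c ∧ a ≠ b ∧ a ≠ c ∧ b ≠ c := by
  obtain ⟨a, b, c, ha, hb, hc, hab, hac, hbc⟩ := hT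
  have key : ∀ x : P, x ∈ l → ∃ m : L, p ∈ m ∧ x ∈ m := by
    intro x hx
    have hne : p ≠ x := by
      intro h
      rw [h] at hp
      exact hp hx
    exact ⟨HasLines.mkLine hne, (HasLines.mkLine_ax hne).1, (HasLines.mkLine_ax hne).2⟩
  have key2 : ∀ (x x' : P) (m m' : L), x ∈ l → x' ∈ l → x ≠ x' → p ∈ m → x ∈ m → x' ∈ m' →
      m ≠ m' := by
    intro x x' m m' hx hx' hne hpm hxm hxm' hmm
    rw [← hmm] at hxm'
    rcases Nondegenerate.eq_or_eq hx hx' hxm hxm' with h | h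
    · exact hne h
    · rw [h] at hp
      exact hp hpm
  obtain ⟨x, hx1, hx2⟩ := key a ha
  obtain ⟨y, hy1, hy2⟩ := key b hb
  obtain ⟨z, hz1, hz2⟩ := key c hc
  exact ⟨x, y, z, hx1, hy1, hz1, key2 a b x y ha hb hab hx1 hx2 hy2,
    key2 a c x z ha hc hac hx1 hx2 hz2, key2 b c y z hb hc hbc hy1 hy2 hz2⟩

/-- every line of a (possibly infinite) projective plane has at least three points. -/
theorem three_points {P L : Type*} [Membership P L] [ProjectivePlane P L] (l : L) :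
    ∃ a b c : P, a ∈ l ∧ b ∈ l ∧ c ∈ l ∧ a ≠ b ∧ a ≠ c ∧ b ≠ c := by
  obtain ⟨p1, p2, p3, l1, l2, l3, h12, h13, h21, h22, h23, h31, h32, h33⟩ :=
    ProjectivePlane.exists_config (P := P) (L := L)
  have hp12 : p1 ≠ p2 := by
    intro h
    rw [h] at h12
    exact h12 h22
  have hp13 : p1 ≠ p3 := by
    intro h
    rw [h] at h12
    exact h12 h32
  have hp23 : p2 ≠ p3 := by
    intro h
    rw [h] at h23
    exact h33 h23
  have hl12 : l1 ≠ l2 := by
    intro h
    rw [h] at h21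
    exact h21 h22
  have hl23 : l2 ≠ l3 := by
    intro h
    rw [h] at h32
    exact h33 h32
  have hT2 : ∃ a b c : P, a ∈ l2 ∧ b ∈ l2 ∧ c ∈ l2 ∧ a ≠ b ∧ a ≠ c ∧ b ≠ c := by
    refine ⟨p2, p3, HasPoints.mkPoint hl12, h22, h32, (HasPoints.mkPoint_ax hl12).2, hp23, ?_, ?_⟩
    · intro h
      rw [h] at h21
      exact h21 (HasPoints.mkPoint_ax hl12).1
    · intro h
      rw [h] at h31
      exact h31 (HasPoints.mkPoint_ax hl12).1
  have hD2 : ∃ a b c : L, p2 ∈ a ∧ p2 ∈ b ∧ p2 ∈ c ∧ a ≠ b ∧ a ≠ c ∧ b ≠ c := by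
    refine ⟨l2, l3, HasLines.mkLine hp12, h22, h23, (HasLines.mkLine_ax hp12).2, hl23, ?_, ?_⟩
    · intro h
      rw [h] at h12
      exact h12 (HasLines.mkLine_ax hp12).1
    · intro h
      rw [h] at h13
      exact h13 (HasLines.mkLine_ax hp12).1
  by_cases hl : p2 ∈ l
  · by_cases hll : l = l2
    · rw [hll]; exact hT2
    · -- find q off l2 and l
      obtain ⟨q, hq2, hql⟩ : ∃ q : P, q ∉ l2 ∧ q ∉ l := by
        by_cases hp1l : p1 ∈ l
        · obtain ⟨m, hm⟩ : ∃ m : L, m = HasLines.mkLine hp13 := ⟨_, rfl⟩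
          have hm1 : p1 ∈ m := by rw [hm]; exact (HasLines.mkLine_ax hp13).1
          have hm3 : p3 ∈ m := by rw [hm]; exact (HasLines.mkLine_ax hp13).2
          have hne : l3 ≠ m := by
            intro h
            rw [h] at h13
            exact h13 hm1
          have hp2m : p2 ∉ m := by
            intro h
            rcases Nondegenerate.eq_or_eq h hm3 h22 h32 with h' | h'
            · exact hp23 h'
            · rw [h'] at hm1
              exact h12 hm1
          obtain ⟨q, hq⟩ : ∃ q : P, q = HasPoints.mkPoint hne := ⟨_, rfl⟩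
          have hq3 : q ∈ l3 := by rw [hq]; exact (HasPoints.mkPoint_ax hne).1
          have hqm : q ∈ m := by rw [hq]; exact (HasPoints.mkPoint_ax hne).2
          refine ⟨q, ?_, ?_⟩
          · intro h
            rcases Nondegenerate.eq_or_eq h h22 hq3 h23 with h' | h'
            · rw [h'] at hqm
              exact hp2m hqm
            · exact hl23 h'
          · intro h
            rcases Nondegenerate.eq_or_eq h hl hq3 h23 with h' | h'
            · rw [h'] at hqm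
              exact hp2m hqm
            · rw [h'] at hp1l
              exact h13 hp1l
        · exact ⟨p1, h12, hp1l⟩
      exact three_points_aux l q hql (three_points_aux' l2 q hq2 hT2)
  · exact three_points_aux l p2 hl hD2

end Pool.Agent.Helper359.LB
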