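import Mathlib
import Pool.Agent.Helper359.LB.Algebra
import Pool.Agent.Helper359.LB.Moufang
import Pool.Agent.Helper359.LB.Three

set_option autoImplicit false
open Configuration

namespace Pool.Agent.Helper359.LB

section basics

variable {P L : Type*} [Membership P L] [ProjectivePlane P L]

theorem line_uniq {a b : P} {l m : L} (h : a ≠ b) (h1 : a ∈ l) (h2 : b ∈ l) (h3 : a ∈ m)
    (h4 : b ∈ m) : l = m :=
  (Nondegenerate.eq_or_eq h1 h2 h3 h4).resolve_left h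

theorem point_uniq {a b : P} {l m : L} (h : l ≠ m) (h1 : a ∈ l) (h2 : b ∈ l) (h3 : a ∈ m)
    (h4 : b ∈ m) : a = b :=
  (Nondegenerate.eq_or_eq h1 h2 h3 h4).resolve_right h

theorem exists_line {a b : P} (h : a ≠ b) : ∃ l : L, a ∈ l ∧ b ∈ l :=
  ⟨HasLines.mkLine h, HasLines.mkLine_ax h⟩

theorem exists_pt {l m : L} (h : l ≠ m) : ∃ a : P, a ∈ l ∧ a ∈ m :=
  ⟨HasPoints.mkPoint h, HasPoints.mkPoint_ax h⟩

end basics

/-- The data of the problem: a group of collineations and a flag with the transitivity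
properties of type I.6. -/
structure Hyp (P L : Type*) [Membership P L] [ProjectivePlane P L] where
  Γ : Subgroup (Equiv.Perm P × Equiv.Perm L)
  inc : ∀ γ ∈ Γ, ∀ (p : P) (l : L), p ∈ l ↔ γ.1 p ∈ γ.2 l
  v : P
  W : L
  σ : P → L
  vW : v ∈ W
  σ1 : ∀ x, x ∈ W → x ≠ v → v ∈ σ x ∧ σ x ≠ W
  σ2 : ∀ x y, x ∈ W → x ≠ v → y ∈ W → y ≠ v → σ x = σ y → x = y
  σ3 : ∀ M : L, v ∈ M → M ≠ W → ∃ x, x ∈ W ∧ x ≠ v ∧ σ x = M
  tr : ∀ (x : P) (Y : L),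
    (∀ M : L, x ∈ M → M ≠ Y → ∀ p q : P, p ∈ M → q ∈ M → p ≠ x → q ≠ x →
      p ∉ Y → q ∉ Y →
      ∃ γ ∈ Γ, (∀ r : P, r ∈ Y → γ.1 r = r) ∧ (∀ N : L, x ∈ N → γ.2 N = N) ∧ γ.1 p = q)
    ↔ (x ∈ W ∧ x ≠ v ∧ Y = σ x)

namespace Hyp

variable {P L : Type*} [Membership P L] [ProjectivePlane P L] (H : Hyp P L)

/-- The points of the line `W` other than `v`. -/
def Om : Type _ := {x : P // x ∈ H.W ∧ x ≠ H.v}

theorem inv_inc {γ : Equiv.Perm P × Equiv.Perm L} (hγ : γ ∈ H.Γ) (p : P) (l : L) :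
    γ⁻¹.1 p ∈ l ↔ p ∈ γ.2 l := by
  rw [H.inc γ hγ (γ⁻¹.1 p) l]
  have : γ.1 (γ⁻¹.1 p) = p := γ.1.apply_symm_apply p
  rw [this]

theorem map_tr {γ : Equiv.Perm P × Equiv.Perm L} (hγ : γ ∈ H.Γ) (x : P) (hx : x ∈ H.W)
    (hxv : x ≠ H.v) : γ.1 x ∈ H.W ∧ γ.1 x ≠ H.v ∧ γ.2 (H.σ x) = H.σ (γ.1 x) := by
  rw [← H.tr]
  intro M hM hMY p q hp hq hpx hqx hpY hqY
  have e1 : ∀ a : P, γ.1 (γ⁻¹.1 a) = a := fun a => γ.1.apply_symm_apply a
  have e2 : ∀ a : L, γ.2 (γ⁻¹.2 a) = a := fun a => γ.2.apply_symm_apply a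
  have e3 : ∀ a : P, γ⁻¹.1 (γ.1 a) = a := fun a => γ.1.symm_apply_apply a
  have e4 : ∀ a : L, γ⁻¹.2 (γ.2 a) = a := fun a => γ.2.symm_apply_apply a
  have mm : ∀ (a : P) (l : L), a ∈ l → γ⁻¹.1 a ∈ γ⁻¹.2 l := fun a l h =>
    (H.inc γ⁻¹ (H.Γ.inv_mem hγ) a l).mp h
  obtain ⟨η, hη, h1, h2, h3⟩ := (H.tr x (H.σ x)).mpr ⟨hx, hxv, rfl⟩ (γ⁻¹.2 M)
    (by have := mm _ _ hM; rwa [e3] at this)
    (by intro h; apply hMY; rw [← h, e2])
    (γ⁻¹.1 p) (γ⁻¹.1 q) (mm _ _ hp) (mm _ _ hq)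
    (by intro h; apply hpx; rw [← h, e1]) (by intro h; apply hqx; rw [← h, e1])
    (by rw [H.inv_inc hγ]; exact hpY) (by rw [H.inv_inc hγ]; exact hqY)
  refine ⟨γ * η * γ⁻¹, H.Γ.mul_mem (H.Γ.mul_mem hγ hη) (H.Γ.inv_mem hγ), ?_, ?_, ?_⟩
  · intro r hr
    change γ.1 (η.1 (γ⁻¹.1 r)) = r
    rw [h1 _ ((H.inv_inc hγ r _).mpr hr), e1]
  · intro N hN
    change γ.2 (η.2 (γ⁻¹.2 N)) = N
    rw [h2, e2]
    have := mm _ _ hN
    rwa [e3] at this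
  · change γ.1 (η.1 (γ⁻¹.1 p)) = q
    rw [h3, e1]

instance : MulAction H.Γ H.Om where
  smul γ x := ⟨γ.1.1 x.1, (H.map_tr γ.2 x.1 x.2.1 x.2.2).1, (H.map_tr γ.2 x.1 x.2.1 x.2.2).2.1⟩
  one_smul _ := rfl
  mul_smul _ _ _ := rfl

theorem smul_val (γ : H.Γ) (x : H.Om) : (γ • x).1 = γ.1.1 x.1 := rfl

theorem map_σ (γ : H.Γ) (x : H.Om) : γ.1.2 (H.σ x.1) = H.σ (γ • x).1 :=
  (H.map_tr γ.2 x.1 x.2.1 x.2.2).2.2

theorem σ_ne {x y : H.Om} (h : x ≠ y) : H.σ x.1 ≠ H.σ y.1 := fun e =>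
  h (Subtype.ext (H.σ2 _ _ x.2.1 x.2.2 y.2.1 y.2.2 e))

theorem eq_v {x : H.Om} {p : P} (h1 : p ∈ H.σ x.1) (h2 : p ∈ H.W) : p = H.v :=
  point_uniq (H.σ1 x.1 x.2.1 x.2.2).2 h1 (H.σ1 x.1 x.2.1 x.2.2).1 h2 H.vW

theorem v_mem (x : H.Om) : H.v ∈ H.σ x.1 := (H.σ1 x.1 x.2.1 x.2.2).1

theorem Om_notin (x y : H.Om) : x.1 ∉ H.σ y.1 := fun h => x.2.2 (H.eq_v h x.2.1)

theorem exists_two : ∃ i o : H.Om, i ≠ o := by
  obtain ⟨a, b, c, ha, hb, hc, hab, hac, hbc⟩ := three_points (P := P) H.W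
  by_cases h1 : a = H.v
  · exact ⟨⟨b, hb, fun h => hab (h1.trans h.symm)⟩, ⟨c, hc, fun h => hac (h1.trans h.symm)⟩,
      fun h => hbc (congrArg Subtype.val h)⟩
  · by_cases h2 : b = H.v
    · exact ⟨⟨a, ha, h1⟩, ⟨c, hc, fun h => hbc (h2.trans h.symm)⟩,
        fun h => hac (congrArg Subtype.val h)⟩
    · exact ⟨⟨a, ha, h1⟩, ⟨b, hb, h2⟩, fun h => hab (congrArg Subtype.val h)⟩

theorem map_mem (γ : H.Γ) (p : P) (l : L) : p ∈ l ↔ γ.1.1 p ∈ γ.1.2 l := H.inc γ.1 γ.2 p l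

theorem map_W (γ : H.Γ) : γ.1.2 H.W = H.W := by
  obtain ⟨i, o, hio⟩ := H.exists_two
  have h1 : (γ • i).1 ≠ (γ • o).1 := fun h =>
    hio (smul_left_cancel γ (Subtype.ext h))
  exact line_uniq h1 ((H.map_mem γ _ _).mp i.2.1) ((H.map_mem γ _ _).mp o.2.1) (γ • i).2.1
    (γ • o).2.1

theorem map_v (γ : H.Γ) : γ.1.1 H.v = H.v := by
  obtain ⟨i, o, hio⟩ := H.exists_two
  have h1 : γ • i ≠ γ • o := fun h => hio (smul_left_cancel γ h)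
  apply point_uniq (H.σ_ne h1) _ (H.v_mem _) _ (H.v_mem _)
  · rw [← H.map_σ]; exact (H.map_mem γ _ _).mp (H.v_mem i)
  · rw [← H.map_σ]; exact (H.map_mem γ _ _).mp (H.v_mem o)

theorem map_notW (γ : H.Γ) {p : P} (hp : p ∉ H.W) : γ.1.1 p ∉ H.W := by
  intro h
  apply hp
  rw [H.map_mem γ, H.map_W]; exact h

/-- The homologies with centre `x` and axis `σ x`. -/
def U (x : H.Om) : Subgroup H.Γ where
  carrier := {γ | (∀ r : P, r ∈ H.σ x.1 → γ.1.1 r = r) ∧ (∀ N : L, x.1 ∈ N → γ.1.2 N = N)}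
  mul_mem' := by
    rintro a b ⟨h1, h2⟩ ⟨h3, h4⟩
    refine ⟨fun r hr => ?_, fun N hN => ?_⟩
    · change a.1.1 (b.1.1 r) = r
      rw [h3 r hr, h1 r hr]
    · change a.1.2 (b.1.2 N) = N
      rw [h4 N hN, h2 N hN]
  one_mem' := ⟨fun _ _ => rfl, fun _ _ => rfl⟩
  inv_mem' := by
    rintro a ⟨h1, h2⟩
    refine ⟨fun r hr => ?_, fun N hN => ?_⟩
    · change a.1.1.symm r = r
      rw [Equiv.symm_apply_eq, h1 r hr]
    · change a.1.2.symm N = N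
      rw [Equiv.symm_apply_eq, h2 N hN]

theorem U_pt {x : H.Om} {u : H.Γ} (hu : u ∈ H.U x) {r : P} (hr : r ∈ H.σ x.1) : u.1.1 r = r :=
  hu.1 r hr

theorem U_ln {x : H.Om} {u : H.Γ} (hu : u ∈ H.U x) {N : L} (hN : x.1 ∈ N) : u.1.2 N = N :=
  hu.2 N hN

theorem U_fix (x : H.Om) (u : H.Γ) (hu : u ∈ H.U x) : u • x = x := by
  obtain ⟨p, hp⟩ := Nondegenerate.exists_point (P := P) H.W
  have hne : x.1 ≠ p := fun h => hp (h ▸ x.2.1)
  obtain ⟨l, hl1, hl2⟩ := exists_line (L := L) hne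
  have hlW : l ≠ H.W := fun h => hp (h ▸ hl2)
  apply Subtype.ext
  apply point_uniq hlW _ hl1 (u • x).2.1 x.2.1
  have := (H.map_mem u x.1 l).mp hl1
  rwa [H.U_ln hu hl1] at this

theorem U_conj (g : H.Γ) (x : H.Om) (u : H.Γ) (hu : u ∈ H.U x) : g * u * g⁻¹ ∈ H.U (g • x) := by
  have e1 : ∀ a : P, g.1.1 (g⁻¹.1.1 a) = a := fun a => g.1.1.apply_symm_apply a
  have e2 : ∀ a : L, g.1.2 (g⁻¹.1.2 a) = a := fun a => g.1.2.apply_symm_apply a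
  have e3 : ∀ a : P, g⁻¹.1.1 (g.1.1 a) = a := fun a => g.1.1.symm_apply_apply a
  refine ⟨fun r hr => ?_, fun N hN => ?_⟩
  · change g.1.1 (u.1.1 (g⁻¹.1.1 r)) = r
    rw [H.U_pt hu, e1]
    rw [H.map_mem g, e1, H.map_σ]; exact hr
  · change g.1.2 (u.1.2 (g⁻¹.1.2 N)) = N
    rw [H.U_ln hu, e2]
    rw [H.map_mem g, e2]; exact hN

theorem U_trans (x y z : H.Om) (hy : y ≠ x) (hz : z ≠ x) : ∃ u ∈ H.U x, u • y = z := by
  obtain ⟨γ, hγ, h1, h2, h3⟩ := (H.tr x.1 (H.σ x.1)).mpr ⟨x.2.1, x.2.2, rfl⟩ H.W x.2.1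
    (Ne.symm (H.σ1 x.1 x.2.1 x.2.2).2) y.1 z.1 y.2.1 z.2.1 (fun h => hy (Subtype.ext h))
    (fun h => hz (Subtype.ext h)) (H.Om_notin y x) (H.Om_notin z x)
  exact ⟨⟨γ, hγ⟩, ⟨h1, h2⟩, Subtype.ext h3⟩

theorem exists_Q (x : H.Om) : ∃ p : P, p ∈ H.σ x.1 ∧ p ∉ H.W := by
  obtain ⟨a, b, c, ha, hb, hc, hab, hac, hbc⟩ := three_points (P := P) (H.σ x.1)
  by_cases h1 : a ∈ H.W
  · refine ⟨b, hb, fun h2 => hab ?_⟩
    rw [H.eq_v ha h1, H.eq_v hb h2]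
  · exact ⟨a, ha, h1⟩

theorem U_free (x y : H.Om) (hyx : y ≠ x) (u : H.Γ) (hu : u ∈ H.U x) (h : u • y = y) :
    u = 1 := by
  have hy : u.1.1 y.1 = y.1 := congrArg Subtype.val h
  -- a line with two distinct fixed points is fixed
  have two : ∀ (a b : P) (l : L), a ≠ b → a ∈ l → b ∈ l → u.1.1 a = a → u.1.1 b = b →
      u.1.2 l = l := by
    intro a b l hab ha hb hua hub
    have h1 := (H.map_mem u a l).mp ha
    have h2 := (H.map_mem u b l).mp hb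
    rw [hua] at h1
    rw [hub] at h2
    exact line_uniq hab h1 h2 ha hb
  -- a point not in the axis which is fixed has all lines fixed
  have lines : ∀ s : P, s ∉ H.σ x.1 → u.1.1 s = s → ∀ l : L, s ∈ l → u.1.2 l = l := by
    intro s hs hus l hsl
    have hne : l ≠ H.σ x.1 := fun e => hs (e ▸ hsl)
    obtain ⟨m, hm1, hm2⟩ := exists_pt (P := P) hne
    exact two s m l (fun e => hs (e ▸ hm2)) hsl hm1 hus (H.U_pt hu hm2)
  have meet : ∀ (r : P) (l m : L), l ≠ m → r ∈ l → r ∈ m → u.1.2 l = l → u.1.2 m = m →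
      u.1.1 r = r := by
    intro r l m hlm hl hm h1 h2
    have a1 := (H.map_mem u r l).mp hl
    have a2 := (H.map_mem u r m).mp hm
    rw [h1] at a1
    rw [h2] at a2
    exact point_uniq hlm a1 hl a2 hm
  have off : ∀ r : P, r ∉ H.W → u.1.1 r = r := by
    intro r hr
    have h1 : x.1 ≠ r := fun e => hr (e ▸ x.2.1)
    have h2 : y.1 ≠ r := fun e => hr (e ▸ y.2.1)
    obtain ⟨l, hl1, hl2⟩ := exists_line (L := L) h1
    obtain ⟨m, hm1, hm2⟩ := exists_line (L := L) h2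
    apply meet r l m _ hl2 hm2 (H.U_ln hu hl1) (lines y.1 (H.Om_notin y x) hy m hm1)
    intro e
    rw [← e] at hm1
    have : l = H.W := line_uniq (fun e => hyx (Subtype.ext e)) hm1 hl1 y.2.1 x.2.1
    exact hr (this ▸ hl2)
  have all : ∀ r : P, u.1.1 r = r := by
    intro r
    by_cases hr : r ∈ H.W
    · obtain ⟨s, hs1, hs2⟩ := H.exists_Q y
      have hs3 : s ∉ H.σ x.1 := by
        intro h3
        apply hs2
        rw [point_uniq (H.σ_ne hyx) hs1 (H.v_mem y) h3 (H.v_mem x)]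
        exact H.vW
      have hrs : r ≠ s := fun e => hs2 (e ▸ hr)
      obtain ⟨l, hl1, hl2⟩ := exists_line (L := L) hrs
      exact meet r l H.W (fun e => hs2 (e ▸ hl2)) hl1 hr (lines s hs3 (off s hs2) l hl2)
        (H.U_ln hu x.2.1)
    · exact off r hr
  apply Subtype.ext
  apply Prod.ext
  · exact Equiv.ext all
  · apply Equiv.ext
    intro l
    obtain ⟨a, b, c, ha, hb, hc, hab, hac, hbc⟩ := three_points (P := P) l
    exact two a b l hab ha hb (all a) (all b)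

/-- Collinearity. -/
def Col (_H : Hyp P L) (a b c : P) : Prop := ∃ l : L, a ∈ l ∧ b ∈ l ∧ c ∈ l

theorem U_col {x : H.Om} {u : H.Γ} (hu : u ∈ H.U x) {p : P} (hp : p ∉ H.W) :
    H.Col x.1 p (u.1.1 p) := by
  have h1 : x.1 ≠ p := fun e => hp (e ▸ x.2.1)
  obtain ⟨l, hl1, hl2⟩ := exists_line (L := L) h1
  refine ⟨l, hl1, hl2, ?_⟩
  have := (H.map_mem u p l).mp hl2
  rwa [H.U_ln hu hl1] at this

theorem center_uniq {c d a b : H.Om} {p q : P} (hab : a ≠ b) (hpa : p ∈ H.σ a.1)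
    (hqb : q ∈ H.σ b.1) (hp : p ∉ H.W) (h1 : H.Col c.1 p q) (h2 : H.Col d.1 p q) :
    c = d := by
  obtain ⟨l, l1, l2, l3⟩ := h1
  obtain ⟨m, m1, m2, m3⟩ := h2
  have hpq : p ≠ q := by
    rintro rfl
    apply hp
    rw [point_uniq (H.σ_ne hab) hpa (H.v_mem a) hqb (H.v_mem b)]
    exact H.vW
  have := line_uniq hpq l2 l3 m2 m3
  subst this
  apply Subtype.ext
  have hlW : l ≠ H.W := fun e => hp (e ▸ l2)
  exact point_uniq hlW l1 m1 c.2.1 d.2.1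

theorem special (x y : H.Om) (hxy : x ≠ y) (u : H.Γ) (hu : u ∈ H.U x) (w : H.Γ) (hw : w ∈ H.U y)
    (h : u • w • x = y) : u * w * u = w * u * w ∧ w⁻¹ • x = u • y := by
  have h1 : w⁻¹ * u * w ∈ H.U (w⁻¹ • x) := by
    have := H.U_conj w⁻¹ x u hu
    rwa [inv_inv] at this
  have h2 : u * w * u⁻¹ ∈ H.U (u • y) := H.U_conj u y w hw
  obtain ⟨p, hp1, hp2⟩ := H.exists_Q x
  have hup : u⁻¹.1.1 p = p := H.U_pt (Subgroup.inv_mem _ hu) hp1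
  have hq : u.1.1 (w.1.1 p) ∈ H.σ y.1 := by
    have : y = (u * w) • x := by rw [mul_smul, h]
    rw [this, ← H.map_σ]
    exact (H.map_mem (u * w) p _).mp hp1
  have e1 : (w⁻¹ * u * w).1.1 p = u.1.1 (w.1.1 p) := by
    change w⁻¹.1.1 (u.1.1 (w.1.1 p)) = u.1.1 (w.1.1 p)
    exact H.U_pt (Subgroup.inv_mem _ hw) hq
  have e2 : (u * w * u⁻¹).1.1 p = u.1.1 (w.1.1 p) := by
    change u.1.1 (w.1.1 (u⁻¹.1.1 p)) = u.1.1 (w.1.1 p)
    rw [hup]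
  have hc : w⁻¹ • x = u • y := by
    apply H.center_uniq hxy hp1 hq hp2
    · have := H.U_col h1 hp2
      rwa [e1] at this
    · have := H.U_col h2 hp2
      rwa [e2] at this
  refine ⟨?_, hc⟩
  have h3 : (w⁻¹ * u * w)⁻¹ * (u * w * u⁻¹) ∈ H.U (w⁻¹ • x) := by
    refine Subgroup.mul_mem _ (Subgroup.inv_mem _ h1) ?_
    rw [hc]; exact h2
  have h4 : ((w⁻¹ * u * w)⁻¹ * (u * w * u⁻¹)).1.1 p = p := by
    change (w⁻¹ * u * w).1.1.symm ((u * w * u⁻¹).1.1 p) = p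
    rw [e2, ← e1]
    exact Equiv.symm_apply_apply _ _
  have h5 : ((w⁻¹ * u * w)⁻¹ * (u * w * u⁻¹)) • x = x := by
    by_contra hne
    have hpv : p ≠ H.v := fun e => hp2 (e ▸ H.vW)
    apply H.σ_ne hne
    rw [← H.map_σ]
    have a1 := (H.map_mem ((w⁻¹ * u * w)⁻¹ * (u * w * u⁻¹)) p _).mp hp1
    rw [h4] at a1
    have a2 := (H.map_mem ((w⁻¹ * u * w)⁻¹ * (u * w * u⁻¹)) H.v _).mp (H.v_mem x)
    rw [H.map_v] at a2
    exact line_uniq hpv a1 a2 hp1 (H.v_mem x)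
  have hcx : x ≠ w⁻¹ • x := by
    intro e
    have e' : w • x = x := by
      nth_rw 1 [e]; rw [smul_inv_smul]
    rw [e', H.U_fix x u hu] at h
    exact hxy h
  have h6 := H.U_free _ x hcx _ h3 h5
  have h7 : w⁻¹ * u * w = u * w * u⁻¹ := inv_mul_eq_one.mp h6
  calc u * w * u = w * (w⁻¹ * u * w) * u := by group
    _ = w * (u * w * u⁻¹) * u := by rw [h7]
    _ = w * u * w := by group

/-- The Moufang structure, when the homology groups commute. -/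
def mou (hc : ∀ x : H.Om, ∀ u ∈ H.U x, ∀ w ∈ H.U x, u * w = w * u) : Mou H.Γ H.Om where
  U := H.U
  fix := H.U_fix
  conj := H.U_conj
  trans := H.U_trans
  free := H.U_free
  comm := hc
  special := H.special

end Hyp

end Pool.Agent.Helper359.LB
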