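import Pool.Agent.Helper359.LB.Geom

set_option autoImplicit false
open Configuration

namespace Pool.Agent.Helper359.LB

namespace Hyp

variable {P L : Type*} [Membership P L] [ProjectivePlane P L] (H : Hyp P L)

theorem Col_symm {a b c : P} (h : H.Col a b c) : H.Col a c b := by
  obtain ⟨l, h1, h2, h3⟩ := h
  exact ⟨l, h1, h3, h2⟩

theorem proj_exists (c b : H.Om) {p : P} (hp : p ∉ H.W) :
    ∃ q : P, q ∈ H.σ b.1 ∧ q ∉ H.W ∧ H.Col c.1 p q := by
  have h1 : c.1 ≠ p := fun e => hp (e ▸ c.2.1)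
  obtain ⟨l, hl1, hl2⟩ := exists_line (L := L) h1
  have hlW : l ≠ H.W := fun e => hp (e ▸ hl2)
  have hlb : l ≠ H.σ b.1 := by
    intro e
    rw [e] at hl1
    exact H.Om_notin c b hl1
  obtain ⟨q, hq1, hq2⟩ := exists_pt (P := P) hlb
  refine ⟨q, hq2, ?_, l, hl1, hl2, hq1⟩
  intro hqW
  have := H.eq_v hq2 hqW
  subst this
  exact c.2.2 (point_uniq hlW hl1 hq1 c.2.1 H.vW)

theorem proj_uniq (c b : H.Om) {p q q' : P} (hp : p ∉ H.W) (h1 : q ∈ H.σ b.1)
    (h1' : q' ∈ H.σ b.1) (h2 : H.Col c.1 p q) (h2' : H.Col c.1 p q') : q = q' := by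
  obtain ⟨l, l1, l2, l3⟩ := h2
  obtain ⟨m, m1, m2, m3⟩ := h2'
  have hcp : c.1 ≠ p := fun e => hp (e ▸ c.2.1)
  have := line_uniq hcp l1 l2 m1 m2
  subst this
  have hlb : l ≠ H.σ b.1 := by
    intro e
    rw [e] at l1
    exact H.Om_notin c b l1
  exact point_uniq hlb l3 m3 h1 h1'

open Classical in
/-- Projection from `c` onto the line `σ b`. -/
noncomputable def proj (c b : H.Om) (p : P) : P :=
  if hp : p ∉ H.W then Classical.choose (H.proj_exists c b hp) else p

theorem proj_spec (c b : H.Om) {p : P} (hp : p ∉ H.W) :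
    H.proj c b p ∈ H.σ b.1 ∧ H.proj c b p ∉ H.W ∧ H.Col c.1 p (H.proj c b p) := by
  rw [proj, dif_pos hp]
  exact Classical.choose_spec (H.proj_exists c b hp)

theorem proj_eq (c b : H.Om) {p q : P} (hp : p ∉ H.W) (hq : q ∈ H.σ b.1)
    (h : H.Col c.1 p q) : H.proj c b p = q :=
  H.proj_uniq c b hp (H.proj_spec c b hp).1 hq (H.proj_spec c b hp).2.2 h

theorem proj_proj (c a b : H.Om) {p : P} (hp : p ∉ H.W) (hpa : p ∈ H.σ a.1) :
    H.proj c a (H.proj c b p) = p :=
  H.proj_eq c a (H.proj_spec c b hp).2.1 hpa (H.Col_symm (H.proj_spec c b hp).2.2)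

theorem map_col (γ : H.Γ) {a b c : P} (h : H.Col a b c) :
    H.Col (γ.1.1 a) (γ.1.1 b) (γ.1.1 c) := by
  obtain ⟨l, h1, h2, h3⟩ := h
  exact ⟨γ.1.2 l, (H.map_mem γ _ _).mp h1, (H.map_mem γ _ _).mp h2, (H.map_mem γ _ _).mp h3⟩

theorem map_proj (γ : H.Γ) (c b : H.Om) {p : P} (hp : p ∉ H.W) :
    γ.1.1 (H.proj c b p) = H.proj (γ • c) (γ • b) (γ.1.1 p) := by
  symm
  apply H.proj_eq _ _ (H.map_notW γ hp)
  · rw [← H.map_σ]
    exact (H.map_mem γ _ _).mp (H.proj_spec c b hp).1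
  · exact H.map_col γ (H.proj_spec c b hp).2.2

theorem map_memσ (γ : H.Γ) {a b : H.Om} (h : γ • a = b) {p : P} (hp : p ∈ H.σ a.1) :
    γ.1.1 p ∈ H.σ b.1 := by
  rw [← h, ← H.map_σ]
  exact (H.map_mem γ _ _).mp hp

/-- Affine points of the line `σ a`. -/
def Q (a : H.Om) : Type _ := {p : P // p ∈ H.σ a.1 ∧ p ∉ H.W}

/-- Projection as an equivalence. -/
noncomputable def projE (c a b : H.Om) : H.Q a ≃ H.Q b where
  toFun p := ⟨H.proj c b p.1, (H.proj_spec c b p.2.2).1, (H.proj_spec c b p.2.2).2.1⟩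
  invFun p := ⟨H.proj c a p.1, (H.proj_spec c a p.2.2).1, (H.proj_spec c a p.2.2).2.1⟩
  left_inv p := Subtype.ext (H.proj_proj c a b p.2.2 p.2.1)
  right_inv p := Subtype.ext (H.proj_proj c b a p.2.2 p.2.1)

/-- A group element moving `a` to `b` as an equivalence. -/
def actE (γ : H.Γ) (a b : H.Om) (h : γ • a = b) : H.Q a ≃ H.Q b where
  toFun p := ⟨γ.1.1 p.1, by
    rw [← h, ← H.map_σ]; exact ⟨(H.map_mem γ _ _).mp p.2.1, H.map_notW γ p.2.2⟩⟩
  invFun p := ⟨γ⁻¹.1.1 p.1, by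
    have h' : γ⁻¹ • b = a := by rw [← h, inv_smul_smul]
    rw [← h', ← H.map_σ]; exact ⟨(H.map_mem γ⁻¹ _ _).mp p.2.1, H.map_notW γ⁻¹ p.2.2⟩⟩
  left_inv p := Subtype.ext (γ.1.1.symm_apply_apply p.1)
  right_inv p := Subtype.ext (γ.1.1.apply_symm_apply p.1)

theorem projE_val (c a b : H.Om) (p : H.Q a) : (H.projE c a b p).1 = H.proj c b p.1 := rfl

theorem actE_val (γ : H.Γ) (a b : H.Om) (h : γ • a = b) (p : H.Q a) :
    (H.actE γ a b h p).1 = γ.1.1 p.1 := rfl

theorem exists_center {a b : H.Om} (hab : a ≠ b) (p : H.Q a) (q : H.Q b) :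
    ∃ c : H.Om, H.Col c.1 p.1 q.1 := by
  have hpR : p.1 ≠ q.1 := by
    intro e
    apply p.2.2
    have hp' : p.1 ∈ H.σ b.1 := by rw [e]; exact q.2.1
    rw [point_uniq (H.σ_ne hab) p.2.1 (H.v_mem a) hp' (H.v_mem b)]
    exact H.vW
  obtain ⟨l, hl1, hl2⟩ := exists_line (L := L) hpR
  have hlW : l ≠ H.W := by
    intro e
    rw [e] at hl1
    exact p.2.2 hl1
  obtain ⟨z, hz1, hz2⟩ := exists_pt (P := P) hlW
  have hzv : z ≠ H.v := by
    rintro rfl
    have hpv : p.1 ≠ H.v := by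
      intro e
      apply p.2.2
      rw [e]
      exact H.vW
    have := line_uniq hpv hl1 hz1 p.2.1 (H.v_mem a)
    rw [this] at hl2
    apply q.2.2
    rw [point_uniq (H.σ_ne hab) hl2 (H.v_mem a) q.2.1 (H.v_mem b)]
    exact H.vW
  exact ⟨⟨z, hz2, hzv⟩, l, hz1, hl1, hl2⟩

theorem infinite_Om [Infinite P] : Infinite H.Om := by
  by_contra hcon
  rw [not_infinite_iff_finite] at hcon
  obtain ⟨i, o, hio⟩ := H.exists_two
  obtain ⟨r, hr1, hr2⟩ := H.exists_Q i
  have hQo : Finite (H.Q o) := by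
    apply Finite.of_surjective
      (fun c : H.Om => (⟨H.proj c o r, (H.proj_spec c o hr2).1, (H.proj_spec c o hr2).2.1⟩ : H.Q o))
    intro q
    obtain ⟨c, hc⟩ := H.exists_center hio ⟨r, hr1, hr2⟩ q
    exact ⟨c, Subtype.ext (H.proj_eq c o hr2 q.2.1 hc)⟩
  have hQ : ∀ a : H.Om, Finite (H.Q a) := fun a => Finite.of_equiv _ (H.projE i o a)
  have hfin : Finite P := by
    let f : Option (H.Om ⊕ (Σ a : H.Om, H.Q a)) → P := fun t =>
      match t with
      | none => H.v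
      | some (Sum.inl x) => x.1
      | some (Sum.inr y) => y.2.1
    apply Finite.of_surjective f
    intro p
    by_cases hpW : p ∈ H.W
    · by_cases hpv : p = H.v
      · exact ⟨none, hpv.symm⟩
      · exact ⟨some (Sum.inl ⟨p, hpW, hpv⟩), rfl⟩
    · have hvp : H.v ≠ p := by
        intro e
        apply hpW
        rw [← e]
        exact H.vW
      obtain ⟨l, hl1, hl2⟩ := exists_line (L := L) hvp
      have hlW : l ≠ H.W := by
        intro e
        rw [e] at hl2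
        exact hpW hl2
      obtain ⟨a, ha1, ha2, ha3⟩ := H.σ3 l hl1 hlW
      exact ⟨some (Sum.inr ⟨⟨a, ha1, ha2⟩, ⟨p, by rw [ha3]; exact hl2, hpW⟩⟩), rfl⟩
  exact not_finite P

section sys

variable (hc : ∀ x : H.Om, ∀ u ∈ H.U x, ∀ w ∈ H.U x, u * w = w * u) {i o : H.Om} (hio : o ≠ i)

/-- The permutation `δ`. -/
noncomputable def dl (i o : H.Om) : Equiv.Perm (H.Q o) :=
  (H.projE i o i).trans (H.projE o i o)

open Classical in
/-- The permutations `F x`. -/
noncomputable def FF (x : (H.mou hc).Pt i) : Equiv.Perm (H.Q o) :=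
  if hx : x ≠ 0 then
    (H.actE ((H.mou hc).n o x) o i ((H.mou hc).n_o hio hx)).trans (H.projE o i o) else 1

theorem dl_val (p : H.Q o) : (H.dl i o p).1 = H.proj o o (H.proj i i p.1) := rfl

theorem FF_val {x : (H.mou hc).Pt i} (hx : x ≠ 0) (p : H.Q o) :
    (H.FF hc hio x p).1 = H.proj o o (((H.mou hc).n o x).1.1 p.1) := by
  rw [FF, dif_pos hx]; rfl

include hio in
theorem FF_FF {x y : (H.mou hc).Pt i} (hx : x ≠ 0) (hy : y ≠ 0) (p : H.Q o) :
    (H.FF hc hio x (H.FF hc hio y p)).1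
      = H.proj o o (H.proj i i (((H.mou hc).n o x * (H.mou hc).n o y).1.1 p.1)) := by
  have h1 : ((H.mou hc).n o y).1.1 p.1 ∉ H.W := H.map_notW _ p.2.2
  rw [H.FF_val hc hio hx, H.FF_val hc hio hy, H.map_proj _ o o h1, (H.mou hc).n_o hio hx]
  rfl

include hio in
theorem n_mem {x : (H.mou hc).Pt i} (hx : x ≠ 0) (p : H.Q o) :
    ((H.mou hc).n o x).1.1 p.1 ∈ H.σ i.1 :=
  H.map_memσ ((H.mou hc).n o x) ((H.mou hc).n_o hio hx) p.2.1

include hio in
theorem n_col {x : (H.mou hc).Pt i} (hx : x ≠ 0) (p : H.Q o) :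
    H.Col ((H.mou hc).j o x).1 p.1 (((H.mou hc).n o x).1.1 p.1) := by
  have hu : (H.mou hc).al x * (H.mou hc).g o x * ((H.mou hc).al x)⁻¹
      ∈ H.U ((H.mou hc).j o x) :=
    H.U_conj ((H.mou hc).al x) o ((H.mou hc).g o x) ((H.mou hc).g_spec hio hx).1
  have hg : ((H.mou hc).g o x).1.1 p.1 = p.1 := H.U_pt ((H.mou hc).g_spec hio hx).1 p.2.1
  have e1 : ((H.mou hc).n o x).1.1 p.1
      = ((H.mou hc).g o x).1.1 (((H.mou hc).al x)⁻¹.1.1 p.1) := by
    rw [(H.mou hc).n_eq hio hx]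
    change ((H.mou hc).g o x).1.1 (((H.mou hc).al x)⁻¹.1.1 (((H.mou hc).g o x).1.1 p.1)) = _
    rw [hg]
  have hmem := H.n_mem hc hio hx p
  have e2 : ((H.mou hc).al x * (H.mou hc).g o x * ((H.mou hc).al x)⁻¹).1.1 p.1
      = ((H.mou hc).n o x).1.1 p.1 := by
    change ((H.mou hc).al x).1.1 (((H.mou hc).g o x).1.1 (((H.mou hc).al x)⁻¹.1.1 p.1)) = _
    rw [← e1]
    exact H.U_pt ((H.mou hc).al_mem x) hmem
  have := H.U_col hu p.2.2
  rwa [e2] at this

/-- The abstract system attached to the plane. -/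
noncomputable def sys : Sys ((H.mou hc).Pt i) (H.Q o) where
  δ := H.dl i o
  F := H.FF hc hio
  c := fun x y => -(H.mou hc).N o x y
  c_ne := fun x y hx hy => neg_ne_zero.mpr ((H.mou hc).N_ne hio hx hy)
  conj := by
    intro x y hx hy p
    have hcn : -(H.mou hc).N o x y ≠ 0 := neg_ne_zero.mpr ((H.mou hc).N_ne hio hx hy)
    apply Subtype.ext
    rw [H.FF_FF hc hio hcn hx, H.FF_FF hc hio hx hy, ← (H.mou hc).n_conj hio hx hy,
      inv_mul_cancel_right]
  neg := by
    intro x hx p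
    apply Subtype.ext
    rw [H.FF_FF hc hio (neg_ne_zero.mpr hx) hx, (H.mou hc).n_neg hio hx, inv_mul_cancel]
    rfl
  δF := by
    intro x hx p
    have h1 : H.proj i i p.1 ∉ H.W := (H.proj_spec i i p.2.2).2.1
    apply Subtype.ext
    rw [dl_val, H.FF_val hc hio hx, H.FF_val hc hio hx, dl_val, H.map_proj _ o o h1,
      (H.mou hc).n_o hio hx, H.map_proj _ i i p.2.2, (H.mou hc).n_i hio hx]
  S1 := by
    intro p q
    obtain ⟨hQ1, hQ2, hQ3⟩ := H.proj_spec o i q.2.2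
    set R := H.proj o i q.1 with hR
    have hRq : H.proj o o R = q.1 := H.proj_proj o o i q.2.2 q.2.1
    have hpR : p.1 ≠ R := by
      intro e
      apply p.2.2
      have hp' : p.1 ∈ H.σ i.1 := by rw [e]; exact hQ1
      rw [point_uniq (H.σ_ne hio) p.2.1 (H.v_mem o) hp' (H.v_mem i)]
      exact H.vW
    obtain ⟨l, hl1, hl2⟩ := exists_line (L := L) hpR
    have hlW : l ≠ H.W := by
      intro e
      rw [e] at hl1
      exact p.2.2 hl1
    obtain ⟨z, hz1, hz2⟩ := exists_pt (P := P) hlW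
    have hzv : z ≠ H.v := by
      rintro rfl
      have hpv : p.1 ≠ H.v := by
        intro e
        apply p.2.2
        rw [e]
        exact H.vW
      have := line_uniq hpv hl1 hz1 p.2.1 (H.v_mem o)
      rw [this] at hl2
      apply hQ2
      rw [point_uniq (H.σ_ne hio) hl2 (H.v_mem o) hQ1 (H.v_mem i)]
      exact H.vW
    let zz : H.Om := ⟨z, hz2, hzv⟩
    have hcol : H.Col zz.1 p.1 R := ⟨l, hz1, hl1, hl2⟩
    by_cases h1 : zz = o
    · left
      apply Subtype.ext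
      rw [h1] at hcol
      rw [← hRq]
      exact H.proj_eq o o hQ2 p.2.1 (H.Col_symm hcol)
    · by_cases h2 : zz = i
      · right; left
        apply Subtype.ext
        rw [h2] at hcol
        rw [dl_val, ← hRq, H.proj_eq i i p.2.2 hQ1 hcol]
      · right; right
        obtain ⟨x, hx⟩ := (H.mou hc).j_surj hio zz h2
        have hx0 : x ≠ 0 := by
          rintro rfl
          rw [Mou.j_zero] at hx
          exact h1 hx.symm
        refine ⟨x, hx0, Subtype.ext ?_⟩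
        rw [H.FF_val hc hio hx0, ← hRq]
        have hn := H.n_col hc hio hx0 p
        rw [hx] at hn
        rw [H.proj_uniq zz i p.2.2 hQ1 (H.n_mem hc hio hx0 p) hcol hn]
  d1 := by
    intro p h
    have h' := congrArg Subtype.val h
    rw [dl_val] at h'
    obtain ⟨a1, a2, a3⟩ := H.proj_spec i i p.2.2
    obtain ⟨b1, b2, b3⟩ := H.proj_spec o o a2
    rw [h'] at b3
    exact hio (H.center_uniq hio p.2.1 a1 p.2.2 a3 (H.Col_symm b3)).symm
  d2 := by
    intro x p hx h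
    have h' := congrArg Subtype.val h
    rw [H.FF_val hc hio hx] at h'
    have h1 : ((H.mou hc).n o x).1.1 p.1 ∉ H.W := H.map_notW _ p.2.2
    obtain ⟨b1, b2, b3⟩ := H.proj_spec o o h1
    rw [h'] at b3
    exact (H.mou hc).j_ne_o hio hx
      (H.center_uniq hio p.2.1 (H.n_mem hc hio hx p) p.2.2 (H.n_col hc hio hx p)
        (H.Col_symm b3))
  d3 := by
    intro x p hx h
    have h' := congrArg Subtype.val h
    rw [H.FF_val hc hio hx, dl_val] at h'
    have h1 : ((H.mou hc).n o x).1.1 p.1 ∉ H.W := H.map_notW _ p.2.2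
    obtain ⟨a1, a2, a3⟩ := H.proj_spec i i p.2.2
    have h2 := congrArg (H.proj o i) h'
    rw [H.proj_proj o i o h1 (H.n_mem hc hio hx p), H.proj_proj o i o a2 a1] at h2
    rw [← h2] at a3
    exact (H.mou hc).j_ne hio x
      (H.center_uniq hio p.2.1 (H.n_mem hc hio hx p) p.2.2 (H.n_col hc hio hx p) a3)
  inj := by
    intro x y p hx hy h
    have h' := congrArg Subtype.val h
    rw [H.FF_val hc hio hx, H.FF_val hc hio hy] at h'
    have h1 : ((H.mou hc).n o x).1.1 p.1 ∉ H.W := H.map_notW _ p.2.2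
    have h1' : ((H.mou hc).n o y).1.1 p.1 ∉ H.W := H.map_notW _ p.2.2
    have h2 := congrArg (H.proj o i) h'
    rw [H.proj_proj o i o h1 (H.n_mem hc hio hx p),
      H.proj_proj o i o h1' (H.n_mem hc hio hy p)] at h2
    have h3 := H.n_col hc hio hy p
    rw [← h2] at h3
    exact (H.mou hc).j_inj hio
      (H.center_uniq hio p.2.1 (H.n_mem hc hio hx p) p.2.2 (H.n_col hc hio hx p) h3)
  cc := fun x y hx hy => (H.mou hc).cc hio hx hy
  cself := by
    intro x hx
    rw [(H.mou hc).N_self hio hx, neg_neg]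
  comm := fun a b ha hb h1 h2 => (H.mou hc).M2 hio ha hb h1 h2

end sys

theorem comm_all [Infinite P] (x0 : H.Om)
    (h0 : ∀ u ∈ H.U x0, ∀ w ∈ H.U x0, u * w = w * u) :
    ∀ x : H.Om, ∀ u ∈ H.U x, ∀ w ∈ H.U x, u * w = w * u := by
  intro x u hu w hw
  have := H.infinite_Om
  obtain ⟨y, hy⟩ := Set.Finite.exists_notMem (Set.toFinite ({x0, x} : Set H.Om))
  simp only [Set.mem_insert_iff, Set.mem_singleton_iff, not_or] at hy
  obtain ⟨t, -, ht⟩ := H.U_trans y x x0 (Ne.symm hy.2) (Ne.symm hy.1)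
  have h1 := H.U_conj t x u hu
  have h2 := H.U_conj t x w hw
  rw [ht] at h1 h2
  have h3 := h0 _ h1 _ h2
  have h4 : t * (u * w) * t⁻¹ = t * (w * u) * t⁻¹ := by
    calc t * (u * w) * t⁻¹ = (t * u * t⁻¹) * (t * w * t⁻¹) := by group
      _ = (t * w * t⁻¹) * (t * u * t⁻¹) := h3
      _ = t * (w * u) * t⁻¹ := by group
  exact mul_left_cancel (mul_right_cancel h4)

theorem main [Infinite P] (x0 : H.Om)
    (h0 : ∀ u ∈ H.U x0, ∀ w ∈ H.U x0, u * w = w * u) (i : H.Om) (u : H.Γ) (hu : u ∈ H.U i) :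
    u ^ 3 = 1 := by
  by_contra hu3
  have hc := H.comm_all x0 h0
  have := H.infinite_Om
  obtain ⟨o, ho⟩ := Set.Finite.exists_notMem (Set.toFinite ({i} : Set H.Om))
  have hio : o ≠ i := by simpa using ho
  obtain ⟨p, hp⟩ := H.exists_Q o
  have hinf : Infinite ((H.mou hc).Pt i) := by
    by_contra hcon
    rw [not_infinite_iff_finite] at hcon
    have : Finite H.Om := by
      let f : Option ((H.mou hc).Pt i) → H.Om := fun t =>
        match t with
        | none => i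
        | some x => (H.mou hc).j o x
      apply Finite.of_surjective f
      intro z
      by_cases hz : z = i
      · exact ⟨none, hz.symm⟩
      · obtain ⟨a, ha⟩ := (H.mou hc).j_surj hio z hz
        exact ⟨some a, ha⟩
    exact not_finite H.Om
  let a : (H.mou hc).Pt i := Additive.ofMul (⟨u, hu⟩ : (H.mou hc).U i)
  have hal : (H.mou hc).al a = u := rfl
  have ha3 : a + a + a ≠ 0 := by
    intro h
    apply hu3
    have h1 := congrArg (H.mou hc).al h
    rw [Mou.al_add, Mou.al_add, Mou.al_zero, hal] at h1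
    rw [pow_succ, pow_two]; exact h1
  rcases (H.mou hc).dich2 hio with h2 | h2
  · apply (H.sys hc hio).no_two (fun x => neg_eq_of_add_eq_zero_left (h2 x)) ⟨p, hp⟩
    intro w
    obtain ⟨y, hy⟩ := Set.Finite.exists_notMem (Set.toFinite ({0, w} : Set ((H.mou hc).Pt i)))
    simp only [Set.mem_insert_iff, Set.mem_singleton_iff, not_or] at hy
    exact ⟨y, hy.1, hy.2⟩
  · rcases (H.mou hc).dich3 hio h2 with h3 | h3
    · exact ha3 (h3 a)
    · apply (H.sys hc hio).no_odd h2 h3 _ _ ((H.mou hc).dsurj hio h2) _ ⟨p, hp⟩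
      · intro x y hx hy
        change -(H.mou hc).N o x (y + y) + -(H.mou hc).N o x (y + y) = -(H.mou hc).N o x y
        rw [← (H.mou hc).M3 hio h2 hx hy]; abel
      · intro x y hx hy
        change -(H.mou hc).N o (x + x) y = -(H.mou hc).N o x y + -(H.mou hc).N o x y
          + (-(H.mou hc).N o x y + -(H.mou hc).N o x y)
        rw [(H.mou hc).M4 hio h2 hx hy]; abel
      · refine ⟨a, ?_⟩
        intro h
        apply ha3
        rw [h]; simp

end Hyp

end Pool.Agent.Helper359.LB
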